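import Pool.Agent.Lib.MP_b07157_agSG.ConeC
import Pool.Agent.Lib.MP_b07157_agSC.OrdE
import Pool.Agent.Lib.MP_b07157_agSD.WCone
import Pool.Agent.Lib.MP_b07157_agSP.Pow

/-!
# Wrappers for the constructors of the classes
-/

noncomputable section

namespace MPb07157

open MvPolynomial

variable {n : ℕ}

namespace CK

/-- The critical zeros of corank at most two are covered by finitely many sets along which the
conjecture is known. -/
theorem exists_cover_corank {f : MvPolynomial (Fin n) ℂ} (hf : f ≠ 0) :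
    ∃ T : Set (Set (Fin n → ℂ)), T.Finite ∧ (∀ W ∈ T, IsConstr W ∧ MonoAlong f W) ∧
      ∀ p, eval p f = 0 → (∀ i, eval p (pderiv i f) = 0) → n ≤ (YG.hessAt f p).rank + 2 →
        ∃ W ∈ T, p ∈ W := by
  classical
  set I : Ideal (MvPolynomial (Fin n) ℂ) :=
    Ideal.span (insert f (Set.range fun i => pderiv i f)) with hI
  obtain ⟨T', h1, h2, h3⟩ := exists_fin_cover (fun W => IsConstr W ∧ (MonoAlong f W ∨
      ∀ x ∈ W, ¬ n ≤ (YG.hessAt f x).rank + 2)) I (fun 𝔭 h𝔭 hI𝔭 => by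
    have hf𝔭 : f ∈ 𝔭 := hI𝔭 (Ideal.subset_span (Set.mem_insert _ _))
    have hs : ∀ i, pderiv i f ∈ 𝔭 := fun i =>
      hI𝔭 (Ideal.subset_span (Set.mem_insert_of_mem _ ⟨i, rfl⟩))
    have h1𝔭 : (1 : MvPolynomial (Fin n) ℂ) ∉ 𝔭 := fun h =>
      h𝔭.ne_top ((Ideal.eq_top_iff_one _).2 h)
    by_cases hfin : (Vz 𝔭).Finite
    · refine ⟨(fun p => {p}) '' Vz 𝔭, hfin.image _, ?_, 1, h1𝔭, fun q hq _ =>
        ⟨{q}, ⟨q, hq, rfl⟩, rfl⟩⟩
      rintro _ ⟨q, hq, rfl⟩
      refine ⟨isConstr_point q, ?_⟩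
      by_cases hr : n ≤ (YG.hessAt f q).rank + 2
      · refine Or.inl (MonoAlong.of_point hf fun h1 h2 => SU.smcLoc_corank h1 h2 ?_)
        rw [hess_translate]
        exact hr
      · refine Or.inr fun x hx => ?_
        rw [Set.mem_singleton_iff.1 hx]
        exact hr
    · by_cases hex : ∃ q₀ ∈ Vz 𝔭, n ≤ (YG.hessAt f q₀).rank + 2
      · obtain ⟨q₀, hq₀, hr⟩ := hex
        obtain ⟨W, hWc, ⟨k, w, N, hWs⟩, δ, hδ, hW⟩ := exists_stratum h𝔭 hf𝔭 hs hfin hq₀ hr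
        refine ⟨{W}, Set.finite_singleton W, ?_, δ, hδ, fun q hq hq0 => ⟨W, rfl, hW q hq hq0⟩⟩
        rintro _ rfl
        exact ⟨hWc, Or.inl (MonoAlong.of_sqhAlong hf hWs)⟩
      · push Not at hex
        obtain ⟨G, hG⟩ : 𝔭.FG := IsNoetherian.noetherian 𝔭
        have hVc : IsConstr (Vz 𝔭) := by
          have e1 : Vz 𝔭 = {x | ∀ g ∈ G, eval x g = 0} := by
            ext x
            constructor
            · intro hx g hg
              exact hx g (by rw [← hG]; exact Ideal.subset_span hg)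
            · intro hx g hg
              have h4 : 𝔭 ≤ RingHom.ker (eval x) := by
                rw [← hG, Ideal.span_le]
                exact fun g hg => hx g hg
              exact h4 hg
          rw [e1]
          exact isConstr_forall_mem _ _ fun g _ => isConstr_eq_zero g
        refine ⟨{Vz 𝔭}, Set.finite_singleton _, ?_, 1, h1𝔭, fun q hq _ => ⟨_, rfl, hq⟩⟩
        rintro _ rfl
        exact ⟨hVc, Or.inr fun x hx => not_le.2 (hex x hx)⟩)
  refine ⟨{W ∈ T' | MonoAlong f W}, h1.subset (Set.sep_subset _ _),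
    fun W hW => ⟨(h2 W hW.1).1, hW.2⟩, fun p hp hc hr => ?_⟩
  obtain ⟨W, hW, hpW⟩ := h3 p (fun g hg => by
    have h4 : I ≤ RingHom.ker (eval p) := by
      rw [hI, Ideal.span_le]
      rintro _ (rfl | ⟨i, rfl⟩)
      · exact hp
      · exact hc i
    exact h4 hg)
  rcases (h2 W hW).2 with h5 | h5
  · exact ⟨W, ⟨hW, h5⟩, hpW⟩
  · exact absurd hr (h5 p hpW)

end CK

/-- **The strong monodromy conjecture, global version**: each critical zero lies in one of finitely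
many sets along which the conjecture is known, or is an ordinary multiple point along a smooth germ,
or the Hessian matrix has rank at least `n - 2`. -/
theorem SmcGlob.of_sing {f : MvPolynomial (Fin n) ℂ} (hf : f ≠ 0) (h0 : coeff 0 f = 0)
    {T : Set (Set (Fin n → ℂ))} (hT : T.Finite) (hTW : ∀ W ∈ T, IsConstr W ∧ MonoAlong f W)
    (hcov : ∀ p, eval p f = 0 → (∀ i, eval p (pderiv i f) = 0) →
      (∃ W ∈ T, p ∈ W) ∨ OrdMult f p ∨ n ≤ (YG.hessAt f p).rank + 2) : SmcGlob f := by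
  obtain ⟨T₁, hT₁, hcov₁, hW₁⟩ := exists_cover_ordMult hf
  refine SmcGlob.of_corank hf h0 (T := T ∪ T₁) (hT.union hT₁) ?_ fun p hp hc => ?_
  · rintro W (hW | hW)
    · exact hTW W hW
    · obtain ⟨h1, k, m, h2⟩ := hW₁ W hW
      exact ⟨h1, MonoAlong.of_sqhAlong hf h2⟩
  · rcases hcov p hp hc with ⟨W, hW, hpW⟩ | h | h
    · exact Or.inl ⟨W, Or.inl hW, hpW⟩
    · obtain ⟨W, hW, hpW⟩ := hcov₁ p h
      exact Or.inl ⟨W, Or.inr hW, hpW⟩
    · exact Or.inr h

/-- **Homogeneous polynomials**: each critical zero `p ≠ 0` lies in one of finitely many sets along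
which the conjecture is known, or is an ordinary multiple point along a smooth germ, or the Hessian
matrix has rank at least `n - 3`. -/
theorem SmcLoc.of_coneF {f : MvPolynomial (Fin n) ℂ} (hf : f ≠ 0) {d : ℕ} (hd : 0 < d)
    (hh : f.IsHomogeneous d) {T : Set (Set (Fin n → ℂ))} (hT : T.Finite)
    (hTW : ∀ W ∈ T, IsConstr W ∧ MonoAlong f W)
    (hcov : ∀ p, p ≠ 0 → eval p f = 0 → (∀ i, eval p (pderiv i f) = 0) →
      (∃ W ∈ T, p ∈ W) ∨ OrdMult f p ∨ n ≤ (YG.hessAt f p).rank + 3)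
    (hroot : d = n ∨ ConeRoot f d) : SmcLoc f := by
  obtain ⟨T₁, hT₁, hcov₁, hW₁⟩ := exists_cover_ordMult hf
  refine SmcLoc.of_coneCk hf hd hh (T := T ∪ T₁) (hT.union hT₁) ?_ (fun p hp0 hp hc => ?_)
    hroot.symm
  · rintro W (hW | hW)
    · exact hTW W hW
    · obtain ⟨h1, k, m, h2⟩ := hW₁ W hW
      exact ⟨h1, MonoAlong.of_sqhAlong hf h2⟩
  · rcases hcov p hp0 hp hc with ⟨W, hW, hpW⟩ | h | h
    · exact Or.inl ⟨W, Or.inl hW, hpW⟩
    · obtain ⟨W, hW, hpW⟩ := hcov₁ p h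
      exact Or.inl ⟨W, Or.inr hW, hpW⟩
    · exact Or.inr h

/-- **Weighted homogeneous polynomials**: each critical point `p ≠ 0` lies in one of finitely many
sets along which the conjecture is known, or is an ordinary multiple point along a smooth germ, or
the Hessian matrix has rank at least `n - 2`, or `p` is in one of finitely many orbits along which the
germs are in the class. -/
theorem SmcLoc.of_wconeF {k : ℕ} {f : MvPolynomial (Fin (k + 1)) ℂ} (hf : f ≠ 0)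
    {a : Fin (k + 1) → ℕ} {D : ℕ} (H : WHom f a D) {T : Set (Set (Fin (k + 1) → ℂ))}
    (hT : T.Finite) {P : Finset (Fin (k + 1) → ℂ)}
    (hcov : ∀ p, SingPt f p → (∃ W ∈ T, p ∈ W) ∨ OrdMult f p ∨
      k + 1 ≤ (YG.hessAt f p).rank + 2 ∨ ∃ q ∈ P, ∃ t : ℂ, p = fun i => t ^ a i * q i)
    (h : ∀ W ∈ T, IsConstr W ∧ MonoAlong f W)
    {PP : (m : ℕ) → MvPolynomial (Fin m) ℂ → Prop}
    (hPP : ∀ (m : ℕ) (g : MvPolynomial (Fin m) ℂ), PP m g → g ≠ 0 → coeff 0 g = 0 → SmcLoc g)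
    (j : (Fin (k + 1) → ℂ) → Fin (k + 1)) (hj : ∀ q ∈ P, q (j q) = 1)
    (hP : ∀ q ∈ P, PP k (YQ.chartEq f q (j q))) (hroot : WRoot f a D) : SmcLoc f := by
  obtain ⟨T₁, hT₁, hcov₁, hW₁⟩ := exists_cover_ordMult hf
  obtain ⟨T₂, hT₂, hW₂, hcov₂⟩ := CK.exists_cover_corank hf
  refine SmcLoc.of_wconeM hf H (T := (T ∪ T₁) ∪ T₂) ((hT.union hT₁).union hT₂) (P := P)
    (fun p hp => ?_) ?_ hPP j hj hP hroot
  · rcases hcov p hp with ⟨W, hW, hpW⟩ | h | h | h
    · exact Or.inl ⟨W, Or.inl (Or.inl hW), hpW⟩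
    · obtain ⟨W, hW, hpW⟩ := hcov₁ p h
      exact Or.inl ⟨W, Or.inl (Or.inr hW), hpW⟩
    · obtain ⟨W, hW, hpW⟩ := hcov₂ p (YC.eval_of_Cr H hp) hp.2 h
      exact Or.inl ⟨W, Or.inr hW, hpW⟩
    · exact Or.inr h
  · rintro W ((hW | hW) | hW)
    · exact h W hW
    · obtain ⟨h1, k, m, h2⟩ := hW₁ W hW
      exact ⟨h1, MonoAlong.of_sqhAlong hf h2⟩
    · exact hW₂ W hW

/-- The two ways to give the sets `W`. -/
theorem MonoAlong.of_or {f : MvPolynomial (Fin n) ℂ} (hf : f ≠ 0) {W : Set (Fin n → ℂ)}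
    (h : (∃ (k : ℕ) (g : MvPolynomial (Fin k) ℂ), (g ≠ 0 → coeff 0 g = 0 → SmcLoc g) ∧
      TrivAlong f W g) ∨ ∃ (k : ℕ) (w : Fin k → ℕ) (N m : ℕ), SqhAlongPow f W w N m) :
    MonoAlong f W := by
  rcases h with ⟨k, g, hg, ht⟩ | ⟨k, w, N, m, h⟩
  · exact MonoAlong.of_trivAlong hf ht hg
  · exact MonoAlong.of_sqhAlongPow hf h

end MPb07157
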