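import Pool.Agent.Lib.MP_b07157_agSG.ConeR
import Pool.Agent.Lib.MP_b07157_agSE.MtD

/-!
# The cubic part of a homogeneous polynomial at a triple point, and in an affine chart
-/

noncomputable section

namespace MPb07157

open MvPolynomial Filter Topology

namespace CC

variable {k : ℕ}

theorem Tr3.eval_translate {n : ℕ} (p x : Fin n → ℂ) (f : MvPolynomial (Fin n) ℂ) :
    eval x (translate p f) = eval (p + x) f := by
  unfold translate
  have h1 : ((aeval x : MvPolynomial (Fin n) ℂ →ₐ[ℂ] ℂ).comp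
      (aeval fun i => (X i + C (p i) : MvPolynomial (Fin n) ℂ))) = aeval (p + x) := by
    refine MvPolynomial.algHom_ext fun i => ?_
    rw [AlgHom.comp_apply, aeval_X, aeval_X, map_add, aeval_X, Pi.add_apply, add_comm]
    congr 1
    exact aeval_C _ _
  have h2 := DFunLike.congr_fun h1 f
  rw [AlgHom.comp_apply, MvPolynomial.aeval_eq_eval, MvPolynomial.aeval_eq_eval] at h2
  exact h2

/-- On a line through the origin. -/
theorem Tr3.exists_line {n : ℕ} (P : MvPolynomial (Fin n) ℂ)
    (hP : ∀ i < 3, homogeneousComponent i P = 0) (z : Fin n → ℂ) :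
    ∃ q : ℂ → ℂ, Continuous q ∧ (∀ t, eval (t • z) P = t ^ 3 * q t) ∧
      q 0 = eval z (homogeneousComponent 3 P) := by
  refine ⟨fun t => ∑ i ∈ Finset.range (P.totalDegree + 1),
    t ^ i * eval z (homogeneousComponent (i + 3) P), by fun_prop, fun t => ?_, ?_⟩
  · have h1 : P = ∑ i ∈ Finset.range (P.totalDegree + 1 + 3), homogeneousComponent i P := by
      rw [Finset.sum_range_add, ← MvPolynomial.sum_homogeneousComponent P]
      conv_rhs => rw [MvPolynomial.sum_homogeneousComponent P]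
      rw [left_eq_add]
      refine Finset.sum_eq_zero fun i _ => ?_
      exact homogeneousComponent_eq_zero _ _ (by omega)
    conv_lhs => rw [h1]
    rw [map_sum, Finset.sum_range_succ', Finset.sum_range_succ', Finset.sum_range_succ',
      hP 0 (by norm_num), hP (0 + 1) (by norm_num), hP (0 + 1 + 1) (by norm_num)]
    simp only [map_zero, add_zero]
    rw [Finset.mul_sum]
    refine Finset.sum_congr rfl fun i _ => ?_
    rw [ConeR.eval_smul (homogeneousComponent_isHomogeneous _ _)]
    ring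
  · simp only
    rw [Finset.sum_range_succ']
    simp

/-- The linear substitution of the projection along `p`. -/
def lp (j : Fin (k + 1)) (x : Fin k → ℂ) :
    MvPolynomial (Fin k) ℂ →ₐ[ℂ] MvPolynomial (Fin (k + 1)) ℂ :=
  aeval fun i => X (j.succAbove i) - C (x i) * X j

theorem lp_eval (j : Fin (k + 1)) (x : Fin k → ℂ) (G : MvPolynomial (Fin k) ℂ)
    (y : Fin (k + 1) → ℂ) :
    eval y (lp j x G) = eval (fun i => y (j.succAbove i) - x i * y j) G := by
  unfold lp
  have h1 : ((aeval y : MvPolynomial (Fin (k + 1)) ℂ →ₐ[ℂ] ℂ).comp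
      (aeval fun i => (X (j.succAbove i) - C (x i) * X j : MvPolynomial (Fin (k + 1)) ℂ))) =
      aeval (fun i => y (j.succAbove i) - x i * y j) := by
    refine MvPolynomial.algHom_ext fun i => ?_
    rw [AlgHom.comp_apply, aeval_X, aeval_X, map_sub, map_mul, aeval_X, aeval_X]
    congr 2
    exact aeval_C _ _
  have h2 := DFunLike.congr_fun h1 G
  rw [AlgHom.comp_apply, MvPolynomial.aeval_eq_eval, MvPolynomial.aeval_eq_eval] at h2
  exact h2

/-- A retraction. -/
theorem lp_retr (j : Fin (k + 1)) (x : Fin k → ℂ) (G : MvPolynomial (Fin k) ℂ) :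
    (aeval (j.insertNth (α := fun _ => MvPolynomial (Fin k) ℂ) 0 X)) (lp j x G) = G := by
  unfold lp
  have h1 : ((aeval (j.insertNth (α := fun _ => MvPolynomial (Fin k) ℂ) 0 X)).comp
      (aeval fun i => (X (j.succAbove i) - C (x i) * X j : MvPolynomial (Fin (k + 1)) ℂ))) =
      AlgHom.id ℂ (MvPolynomial (Fin k) ℂ) := by
    refine MvPolynomial.algHom_ext fun i => ?_
    rw [AlgHom.comp_apply, aeval_X, map_sub, map_mul, aeval_X, aeval_X,
      Fin.insertNth_apply_succAbove, Fin.insertNth_apply_same, mul_zero, sub_zero, AlgHom.id_apply]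
  have h2 := DFunLike.congr_fun h1 G
  rw [AlgHom.comp_apply, AlgHom.id_apply] at h2
  exact h2

theorem squarefree_of_lp {j : Fin (k + 1)} {x : Fin k → ℂ} {G : MvPolynomial (Fin k) ℂ}
    (h : Squarefree (lp j x G)) : Squarefree G := by
  intro a ha
  have h1 : lp j x a * lp j x a ∣ lp j x G := by
    rw [← map_mul]
    exact map_dvd _ ha
  have h2 := h _ h1
  have h3 := h2.map (aeval (j.insertNth (α := fun _ => MvPolynomial (Fin k) ℂ) 0 X))
  rw [lp_retr] at h3
  exact h3

/-- The line through `p` in the direction `y`, in the chart. -/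
theorem Tr3.pr_line (j : Fin (k + 1)) {p : Fin (k + 1) → ℂ} (hp : p j ≠ 0) (y : Fin (k + 1) → ℂ)
    {t : ℂ} (ht : p j + t * y j ≠ 0) :
    pr j (p + t • y) = pr j p +
      (t / (p j + t * y j)) • (fun i => y (j.succAbove i) - pr j p i * y j) := by
  funext i
  simp only [pr, Pi.add_apply, Pi.smul_apply, smul_eq_mul]
  field_simp
  ring

/-- **The cubic parts.** -/
theorem Tr3.cubic {f : MvPolynomial (Fin (k + 1)) ℂ} {d : ℕ} (hh : f.IsHomogeneous d)
    {j : Fin (k + 1)} {p : Fin (k + 1) → ℂ} (hp : p j ≠ 0)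
    (hF : ∀ i < 3, homogeneousComponent i (translate p f) = 0)
    (hG : ∀ i < 3, homogeneousComponent i (translate (pr j p) (ch f j)) = 0) :
    homogeneousComponent 3 (translate p f) =
      C (p j ^ d / p j ^ 3) * lp j (pr j p) (homogeneousComponent 3 (translate (pr j p) (ch f j))) := by
  refine MvPolynomial.funext fun y => ?_
  rw [map_mul, eval_C, lp_eval]
  set z : Fin k → ℂ := fun i => y (j.succAbove i) - pr j p i * y j with hz
  obtain ⟨q, hq1, hq2, hq3⟩ := Tr3.exists_line _ hF y
  obtain ⟨r, hr1, hr2, hr3⟩ := Tr3.exists_line _ hG z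
  rw [← hq3, ← hr3]
  have hc : Continuous fun t : ℂ => p j + t * y j := by fun_prop
  have hne : ∀ᶠ t : ℂ in 𝓝 0, p j + t * y j ≠ 0 := by
    apply hc.continuousAt.eventually_ne
    simpa using hp
  have hev : ∀ᶠ t : ℂ in 𝓝[≠] 0,
      q t * (p j + t * y j) ^ 3 = (p j + t * y j) ^ d * r (t / (p j + t * y j)) := by
    filter_upwards [nhdsWithin_le_nhds hne, self_mem_nhdsWithin] with t h1 h2
    have h2' : t ≠ 0 := h2
    have e1 := hq2 t
    rw [Tr3.eval_translate, eval_eq_ch hh (j := j) (by simpa using h1), Tr3.pr_line j hp y h1,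
      ← Tr3.eval_translate, hr2] at e1
    have e2 : (p + t • y) j = p j + t * y j := rfl
    rw [e2] at e1
    have e3 : t ^ 3 * (q t * (p j + t * y j) ^ 3) =
        t ^ 3 * ((p j + t * y j) ^ d * r (t / (p j + t * y j))) := by
      rw [← mul_assoc, ← e1]
      field_simp
    exact mul_left_cancel₀ (pow_ne_zero 3 h2') e3
  have hl : Tendsto (fun t : ℂ => q t * (p j + t * y j) ^ 3) (𝓝[≠] 0)
      (𝓝 (q 0 * (p j + 0 * y j) ^ 3)) :=
    ((hq1.mul (hc.pow 3)).tendsto 0).mono_left nhdsWithin_le_nhds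
  have hr : Tendsto (fun t : ℂ => (p j + t * y j) ^ d * r (t / (p j + t * y j))) (𝓝[≠] 0)
      (𝓝 ((p j + 0 * y j) ^ d * r (0 / (p j + 0 * y j)))) := by
    refine Tendsto.mono_left ?_ nhdsWithin_le_nhds
    have h1 : ContinuousAt (fun t : ℂ => t / (p j + t * y j)) 0 := by
      refine continuousAt_id.div hc.continuousAt ?_
      simpa using hp
    have h2 : ContinuousAt (fun t : ℂ => (p j + t * y j) ^ d * r (t / (p j + t * y j))) 0 :=
      (hc.pow d).continuousAt.mul (ContinuousAt.comp (g := r) hr1.continuousAt h1)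
    exact h2.tendsto
  have hfin := tendsto_nhds_unique (hl.congr' hev) hr
  rw [zero_mul, add_zero, zero_div] at hfin
  have hp3 : p j ^ 3 ≠ 0 := pow_ne_zero 3 hp
  field_simp
  exact hfin

/-- The constant coefficients of the derivatives of order at most two. -/
theorem gen_zero {n : ℕ} {f : MvPolynomial (Fin n) ℂ} {p : Fin n → ℂ} (h0 : eval p f = 0)
    (h1 : ∀ i, eval p (pderiv i f) = 0) (h2 : YG.hessAt f p = 0) :
    ∀ o, constantCoeff (SE3.gen (translate p f) o) = 0 := by
  intro o
  rw [SE3.gen_translate, ← MB.eval_eq_constantCoeff]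
  rcases o with _ | i | ⟨i, l⟩
  · exact h0
  · exact h1 i
  · exact congrFun (congrFun h2 i) l

/-- **Triple points** in the charts. -/
theorem tr3 {f : MvPolynomial (Fin (k + 1)) ℂ} {d : ℕ} (hh : f.IsHomogeneous d)
    {j : Fin (k + 1)} {p : Fin (k + 1) → ℂ} (hp : p j ≠ 0) (h0 : eval p f = 0)
    (h1 : ∀ i, eval p (pderiv i f) = 0) (h2 : YG.hessAt f p = 0)
    (h3 : Squarefree (homogeneousComponent 3 (translate p f))) :
    (eval (pr j p) (ch f j) = 0 ∧ (∀ i, eval (pr j p) (pderiv i (ch f j)) = 0) ∧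
      YG.hessAt (ch f j) (pr j p) = 0) ∧
    Squarefree (homogeneousComponent 3 (translate (pr j p) (ch f j))) := by
  have g0 : eval (pr j p) (ch f j) = 0 := by
    rw [eval_eq_ch hh hp] at h0
    exact (mul_eq_zero.1 h0).resolve_left (pow_ne_zero _ hp)
  have g1 := ch_of_crit hh hp h1
  have g2 : YG.hessAt (ch f j) (pr j p) = 0 := by
    ext i l
    have e1 : eval p (pderiv (j.succAbove i) (pderiv (j.succAbove l) f)) = 0 :=
      congrFun (congrFun h2 (j.succAbove i)) (j.succAbove l)
    rw [eval_eq_ch hh.pderiv.pderiv hp, ← ConeR.pderiv_ch, ← ConeR.pderiv_ch] at e1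
    exact (mul_eq_zero.1 e1).resolve_left (pow_ne_zero _ hp)
  refine ⟨⟨g0, g1, g2⟩, ?_⟩
  have hc := Tr3.cubic hh hp (SE3.low_of_gen (gen_zero h0 h1 h2))
    (SE3.low_of_gen (gen_zero g0 g1 g2))
  refine squarefree_of_lp (j := j) (x := pr j p) (h3.squarefree_of_dvd ?_)
  rw [hc]
  exact Dvd.intro_left _ rfl

end CC

end MPb07157
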