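import Pool.Agent.Lib.MP_b07157_agSG.ConeG
import Pool.Agent.Lib.MP_b07157_agSG.Tr3
import Pool.Agent.Lib.MP_b07157_agSE.TCov
import Pool.Agent.Lib.MP_b07157_agSE.Deg3

/-!
# Cones over surfaces with double points and triple points with reduced tangent cone
-/

noncomputable section

namespace MPb07157

open MvPolynomial

/-- The chart `x_j = 1` of a nonzero form is not zero. -/
theorem CC.ch_ne_zero {k : ℕ} {f : MvPolynomial (Fin (k + 1)) ℂ} (hf : f ≠ 0) {d : ℕ}
    (hh : f.IsHomogeneous d) (j : Fin (k + 1)) : CC.ch f j ≠ 0 := by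
  intro h
  apply hf
  have h1 : ∀ p : Fin (k + 1) → ℂ, eval p (X j * f) = 0 := by
    intro p
    rw [map_mul, eval_X]
    by_cases hp : p j = 0
    · rw [hp, zero_mul]
    · rw [CC.eval_eq_ch hh hp, h, map_zero, mul_zero, mul_zero]
  have h2 : X j * f = 0 := MvPolynomial.funext fun p => by rw [h1 p, map_zero]
  exact (mul_eq_zero.1 h2).resolve_left (X_ne_zero j)

open CC in
/-- **Homogeneous polynomials in four variables**: each critical zero `p ≠ 0` lies in one of finitely
many sets along which the conjecture is known, or is an ordinary multiple point along a smooth germ,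
or the Hessian matrix is not zero at `p`, or the part of degree three of `f` at `p` is squarefree. -/
theorem SmcLoc.of_coneT {f : MvPolynomial (Fin 4) ℂ} (hf : f ≠ 0) {d : ℕ} (hd : 0 < d)
    (hh : f.IsHomogeneous d) {T : Set (Set (Fin 4 → ℂ))} (hT : T.Finite)
    (hTW : ∀ W ∈ T, IsConstr W ∧ MonoAlong f W)
    (hcov : ∀ p, p ≠ 0 → eval p f = 0 → (∀ i, eval p (pderiv i f) = 0) →
      (∃ W ∈ T, p ∈ W) ∨ OrdMult f p ∨ YG.hessAt f p ≠ 0 ∨
        Squarefree (homogeneousComponent 3 (translate p f)))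
    (hroot : d = 4 ∨ ConeRoot f d) : SmcLoc f := by
  classical
  obtain ⟨T₁, hT₁, hcov₁, hW₁⟩ := exists_cover_ordMult hf
  refine SmcLoc.of_coneG (k := 3) hf hd hh (T := T ∪ T₁) (hT.union hT₁) ?_ (fun j => ?_) hroot
  · rintro W (hW | hW)
    · exact hTW W hW
    · obtain ⟨h1, k, m, h2⟩ := hW₁ W hW
      exact ⟨h1, MonoAlong.of_sqhAlong hf h2⟩
  · obtain ⟨A, hA, hAW, hAc⟩ := exists_cover_corank' (ch f j)
    obtain ⟨B, hB, hBW, hBc⟩ := SE3.exists_cover_triple (ch_ne_zero hf hh j)
    refine ⟨A ∪ B, hA.union hB, ?_, fun p hj hp hc => ?_⟩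
    · rintro W (hW | hW)
      · exact hAW W hW
      · exact hBW W hW
    · have hp0 : p ≠ 0 := fun h => hj (by rw [h]; rfl)
      have hrank : 4 ≤ (YG.hessAt f p).rank + 3 → (∃ W ∈ T ∪ T₁, p ∈ W) ∨
          ∃ W ∈ A ∪ B, pr j p ∈ W := by
        intro h
        have e0 : eval (pr j p) (ch f j) = 0 := by
          have := eval_eq_ch hh hj
          rw [hp] at this
          exact (mul_eq_zero.1 this.symm).resolve_left (pow_ne_zero _ hj)
        obtain ⟨W, hW, hpW⟩ := hAc (pr j p) e0 (ch_of_crit hh hj hc)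
          (by have := rank_le hh hj hc; omega)
        exact Or.inr ⟨W, Or.inl hW, hpW⟩
      by_cases hH : YG.hessAt f p = 0
      · rcases hcov p hp0 hp hc with ⟨W, hW, hpW⟩ | h | h | h
        · exact Or.inl ⟨W, Or.inl hW, hpW⟩
        · obtain ⟨W, hW, hpW⟩ := hcov₁ p h
          exact Or.inl ⟨W, Or.inr hW, hpW⟩
        · exact absurd hH h
        · obtain ⟨⟨h1, h2, h3⟩, h4⟩ := tr3 hh hj hp hc hH h
          obtain ⟨W, hW, hpW⟩ := hBc (pr j p) h1 h2 (fun i l => congrFun (congrFun h3 i) l) h4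
          exact Or.inr ⟨W, Or.inr hW, hpW⟩
      · exact hrank (by have := SE3.one_le_rank hH; omega)

end MPb07157
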