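import Pool.Agent.Lib.MP_b07157_agSG.ConeH

/-!
# Cones over sets along which a polynomial is semi-quasi-homogeneous
-/

noncomputable section

namespace MPb07157

open MvPolynomial

namespace CC

variable {k : ℕ}

namespace ConeS

/-- The chain rule. -/
theorem pderiv_aeval {a b : ℕ} (φ : Fin a → MvPolynomial (Fin b) ℂ) (g : MvPolynomial (Fin a) ℂ)
    (i : Fin b) : pderiv i (aeval φ g) = ∑ l, aeval φ (pderiv l g) * pderiv i (φ l) := by
  induction g using MvPolynomial.induction_on with
  | C a =>
    simp only [aeval_C, algebraMap_eq, pderiv_C, map_zero, zero_mul, Finset.sum_const_zero]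
  | add p q hp hq =>
    simp only [map_add, hp, hq, add_mul, Finset.sum_add_distrib]
  | mul_X p k hp =>
    rw [map_mul, aeval_X, Derivation.leibniz, hp, smul_eq_mul, smul_eq_mul]
    have h1 : ∀ j, aeval φ (pderiv j (p * X k)) * pderiv i (φ j) =
        (if j = k then aeval φ p * pderiv i (φ k) else 0) +
          φ k * (aeval φ (pderiv j p) * pderiv i (φ j)) := by
      intro j
      rw [Derivation.leibniz, smul_eq_mul, smul_eq_mul, map_add, map_mul, map_mul, aeval_X]
      by_cases hjk : j = k
      · rw [if_pos hjk, hjk, pderiv_X_self, map_one]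
        ring
      · rw [if_neg hjk, pderiv_X_of_ne (Ne.symm hjk), map_zero]
        ring
    rw [Finset.sum_congr rfl fun j _ => h1 j, Finset.sum_add_distrib,
      Finset.sum_ite_eq' Finset.univ k, if_pos (Finset.mem_univ k), ← Finset.mul_sum]

/-- Evaluation after substitution. -/
theorem eval_aeval {a b : ℕ} (φ : Fin a → MvPolynomial (Fin b) ℂ) (g : MvPolynomial (Fin a) ℂ)
    (y : Fin b → ℂ) : eval y (aeval φ g) = eval (fun i => eval y (φ i)) g := by
  induction g using MvPolynomial.induction_on with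
  | C a => rw [aeval_C, algebraMap_eq, eval_C, eval_C]
  | add p q hp hq => rw [map_add, map_add, map_add, hp, hq]
  | mul_X p k hp => rw [map_mul, map_mul, map_mul, aeval_X, eval_X, hp]

theorem eval_mul_homog {n : ℕ} {f : MvPolynomial (Fin n) ℂ} {d : ℕ} (hh : f.IsHomogeneous d)
    (c : ℂ) (x : Fin n → ℂ) : eval (fun i => c * x i) f = c ^ d * eval x f := by
  rw [eval_eq, eval_eq, Finset.mul_sum]
  refine Finset.sum_congr rfl fun v hv => ?_
  have h1 : ∑ i ∈ v.support, v i = d := by
    have h2 := hh (mem_support_iff.1 hv)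
    rw [← h2, Finsupp.weight_apply, Finsupp.sum]
    simp
  have h2 : ∏ i ∈ v.support, (c * x i) ^ v i = c ^ d * ∏ i ∈ v.support, x i ^ v i := by
    simp_rw [mul_pow]
    rw [Finset.prod_mul_distrib, Finset.prod_pow_eq_pow_sum, h1]
  rw [h2]
  ring

theorem eval_ch {k : ℕ} (f : MvPolynomial (Fin (k + 1)) ℂ) (j : Fin (k + 1)) (y : Fin k → ℂ) :
    eval y (ch f j) = eval (j.insertNth (α := fun _ => ℂ) 1 y) f := by
  unfold ch
  rw [eval_aeval]
  congr 2
  funext i
  refine j.succAboveCases ?_ (fun i => ?_) i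
  · rw [Fin.insertNth_apply_same, Fin.insertNth_apply_same, map_one]
  · rw [Fin.insertNth_apply_succAbove, Fin.insertNth_apply_succAbove, eval_X]

theorem eval_cone {k : ℕ} {f : MvPolynomial (Fin (k + 1)) ℂ} {d : ℕ} (hh : f.IsHomogeneous d)
    (j : Fin (k + 1)) (p : Fin (k + 1) → ℂ) (hp : p j ≠ 0) :
    eval p f = p j ^ d * eval (pr j p) (ch f j) := by
  rw [eval_ch, ← eval_mul_homog hh]
  congr 2
  funext i
  refine j.succAboveCases ?_ (fun i => ?_) i
  · rw [Fin.insertNth_apply_same, mul_one]
  · rw [Fin.insertNth_apply_succAbove, pr, mul_div_cancel₀ _ hp]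

/-- The derivatives of a homogenization in the directions different from `j`. -/
theorem pderiv_homog {k : ℕ} (j : Fin (k + 1)) {g : MvPolynomial (Fin k) ℂ} {N : ℕ}
    {G : MvPolynomial (Fin (k + 1)) ℂ}
    (hG : ∀ p : Fin (k + 1) → ℂ, p j ≠ 0 → eval p G = p j ^ N * eval (pr j p) g)
    (p : Fin (k + 1) → ℂ) (hp : p j ≠ 0) (t : Fin k) :
    eval p (pderiv (j.succAbove t) G) = p j ^ N * (p j)⁻¹ * eval (pr j p) (pderiv t g) := by
  classical
  set c : ℂ := p j with hc
  set Φ : Fin (k + 1) → MvPolynomial (Fin k) ℂ :=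
    j.insertNth (α := fun _ => MvPolynomial (Fin k) ℂ) (C c) X with hΦ
  set Ψ : Fin k → MvPolynomial (Fin k) ℂ := fun s => C c⁻¹ * X s with hΨ
  have hid : aeval Φ G = C (c ^ N) * aeval Ψ g := by
    refine MvPolynomial.funext fun y => ?_
    rw [eval_aeval, map_mul, eval_C, eval_aeval]
    have h1 : (fun i => eval y (Φ i)) = j.insertNth (α := fun _ => ℂ) c y := by
      funext i
      refine j.succAboveCases ?_ (fun i => ?_) i
      · rw [hΦ, Fin.insertNth_apply_same, Fin.insertNth_apply_same, eval_C]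
      · rw [hΦ, Fin.insertNth_apply_succAbove, Fin.insertNth_apply_succAbove, eval_X]
    have h2 : (fun i => eval y (Ψ i)) = pr j (j.insertNth (α := fun _ => ℂ) c y) := by
      funext i
      rw [pr, Fin.insertNth_apply_same, Fin.insertNth_apply_succAbove, hΨ, map_mul, eval_C, eval_X,
        div_eq_inv_mul]
    rw [h1, h2, hG _ (by rw [Fin.insertNth_apply_same]; exact hp), Fin.insertNth_apply_same]
  have hd := congrArg (pderiv t) hid
  rw [pderiv_aeval, pderiv_C_mul, pderiv_aeval] at hd
  have hL : ∑ l, aeval Φ (pderiv l G) * pderiv t (Φ l) =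
      aeval Φ (pderiv (j.succAbove t) G) := by
    rw [Fin.sum_univ_succAbove _ j]
    have h1 : pderiv t (Φ j) = 0 := by
      rw [hΦ, Fin.insertNth_apply_same, pderiv_C]
    rw [h1, mul_zero, zero_add, Finset.sum_eq_single t]
    · rw [hΦ, Fin.insertNth_apply_succAbove, pderiv_X_self, mul_one]
    · intro s _ hs
      rw [hΦ, Fin.insertNth_apply_succAbove, pderiv_X_of_ne hs, mul_zero]
    · exact fun h => absurd (Finset.mem_univ t) h
  have hR : ∑ l, aeval Ψ (pderiv l g) * pderiv t (Ψ l) = aeval Ψ (pderiv t g) * C c⁻¹ := by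
    rw [Finset.sum_eq_single t]
    · rw [hΨ]
      simp only
      rw [pderiv_C_mul, pderiv_X_self, mul_one]
    · intro s _ hs
      rw [hΨ]
      simp only
      rw [pderiv_C_mul, pderiv_X_of_ne hs, mul_zero, mul_zero]
    · exact fun h => absurd (Finset.mem_univ t) h
  rw [hL, hR] at hd
  have he := congrArg (eval fun i => p (j.succAbove i)) hd
  rw [eval_aeval, map_mul, map_mul, eval_C, eval_C, eval_aeval] at he
  have h1 : (fun i => eval (fun i => p (j.succAbove i)) (Φ i)) = p := by
    funext i
    refine j.succAboveCases ?_ (fun i => ?_) i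
    · rw [hΦ, Fin.insertNth_apply_same, eval_C]
    · rw [hΦ, Fin.insertNth_apply_succAbove, eval_X]
  have h2 : (fun i => eval (fun i => p (j.succAbove i)) (Ψ i)) = pr j p := by
    funext i
    rw [pr, hΨ, map_mul, eval_C, eval_X, div_eq_inv_mul]
  rw [h1, h2] at he
  rw [he]
  ring

/-- Scaling the variables multiplies the coefficients by powers. -/
theorem coeff_scale {m : ℕ} (s : ℂ) (P : MvPolynomial (Fin m) ℂ) (v : Fin m →₀ ℕ) :
    coeff v (aeval (fun i => C s * X i : Fin m → MvPolynomial (Fin m) ℂ) P) =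
      s ^ (∑ i, v i) * coeff v P := by
  classical
  induction P using MvPolynomial.induction_on' with
  | monomial u a =>
    have h1 : aeval (fun i => C s * X i : Fin m → MvPolynomial (Fin m) ℂ) (monomial u a) =
        monomial u (s ^ (∑ i, u i) * a) := by
      rw [aeval_monomial, algebraMap_eq, Finsupp.prod_fintype _ _ (fun i => pow_zero _)]
      simp_rw [mul_pow]
      rw [Finset.prod_mul_distrib]
      have h2 : ∏ i, (C s : MvPolynomial (Fin m) ℂ) ^ u i = C (s ^ (∑ i, u i)) := by
        rw [Finset.prod_pow_eq_pow_sum, map_pow]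
      rw [h2, monomial_eq, Finsupp.prod_fintype _ _ (fun i => pow_zero _), map_mul]
      ring
    rw [h1, coeff_monomial, coeff_monomial]
    by_cases h : u = v
    · rw [if_pos h, if_pos h, h]
    · rw [if_neg h, if_neg h, mul_zero]
  | add p q hp hq => rw [map_add, coeff_add, coeff_add, hp, hq]; ring

end ConeS

open ConeS in
/-- If `f` is homogeneous and its restriction to `x_j = 1` is semi-quasi-homogeneous along `W`, then
`f` is semi-quasi-homogeneous along the cone over `W`. Proof: let `a f_j = g(x; u)` with `f_j = ch f j`,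
`u_i` and the coefficients `c_ν` of `g` in `k` variables. Take `N₀` at least the degrees of
`a`, the `u_i`, the `c_ν`, `U_i(p) = p_j^N₀ u_i(pr p)`, `A(p) = p_j^(M - d) a(pr p)`,
`C_ν(p) = p_j^(M - N₀ |ν|) c_ν(pr p)` with `M` large (`M ≥ N₀ (|ν| + 1) + d + N₀` for all `ν`):
`A f = ∑ C_ν U^ν` at the points with `p_j ≠ 0`, hence as polynomials after multiplication by `x_j`
(`MvPolynomial.funext`; multiply `A` and the `C_ν` by `x_j`). For `p` in the cone: `U_i(p) = 0`;
the differentials `dU_i(p)` restricted to the directions `≠ j` are `p_j^(N₀ - 1) du_i(pr p)`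
(because `u_i(pr p) = 0`; chain rule, or differentiate the polynomial identity for `U_i`), so they are
independent; the leading form at `p` is `∑ C_ν(p) y^ν = p_j^(M + 1) ∑ c_ν(pr p) (p_j^(-N₀) y)^ν`, and
`y ↦ p_j^(-N₀) y` maps critical points to critical points. -/
theorem sqhAlong_cone {f : MvPolynomial (Fin (k + 1)) ℂ} {d : ℕ} (hh : f.IsHomogeneous d)
    (j : Fin (k + 1)) {W : Set (Fin k → ℂ)} {m : ℕ} {w : Fin m → ℕ} {N : ℕ}
    (h : SqhAlong (ch f j) W w N) : SqhAlong f (cone j W) w N := by
  classical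
  obtain ⟨hN, hw, a, u, g, hag, hsup, hW⟩ := h
  refine ⟨hN, hw, ?_⟩
  -- the degrees
  set N₀ : ℕ := a.totalDegree + (∑ i, (u i).totalDegree) +
    (∑ v ∈ g.support, (coeff v g).totalDegree) with hN₀
  set V : ℕ := ∑ v ∈ g.support, ∑ i, v i with hV
  set M : ℕ := N₀ * (V + 1) + d with hM
  have hdu : ∀ i, (u i).totalDegree ≤ N₀ := by
    intro i
    have : (u i).totalDegree ≤ ∑ i, (u i).totalDegree :=
      Finset.single_le_sum (f := fun i => (u i).totalDegree) (fun _ _ => Nat.zero_le _)
        (Finset.mem_univ i)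
    omega
  have hda : a.totalDegree ≤ M - d := by
    have h1 : N₀ ≤ N₀ * (V + 1) := Nat.le_mul_of_pos_right _ (Nat.succ_pos _)
    omega
  have hvV : ∀ v ∈ g.support, ∑ i, v i ≤ V := by
    intro v hv
    exact Finset.single_le_sum (f := fun v : Fin m →₀ ℕ => ∑ i, v i) (fun _ _ => Nat.zero_le _) hv
  have hMv : ∀ v ∈ g.support, N₀ * ∑ i, v i ≤ M := by
    intro v hv
    have h1 : N₀ * ∑ i, v i ≤ N₀ * V := Nat.mul_le_mul_left _ (hvV v hv)
    have h2 : N₀ * (V + 1) = N₀ * V + N₀ := Nat.mul_succ _ _
    omega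
  have hdc : ∀ v ∈ g.support, (coeff v g).totalDegree ≤ M - N₀ * ∑ i, v i := by
    intro v hv
    have h0 : (coeff v g).totalDegree ≤ N₀ := by
      have : (coeff v g).totalDegree ≤ ∑ v ∈ g.support, (coeff v g).totalDegree :=
        Finset.single_le_sum (f := fun v => (coeff v g).totalDegree)
          (fun _ _ => Nat.zero_le _) hv
      omega
    have h1 : N₀ * ∑ i, v i ≤ N₀ * V := Nat.mul_le_mul_left _ (hvV v hv)
    have h2 : N₀ * (V + 1) = N₀ * V + N₀ := Nat.mul_succ _ _
    omega
  -- the homogenizations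
  obtain ⟨A, hA⟩ := exists_homog j a hda
  choose U hU using fun i => exists_homog j (u i) (hdu i)
  have hC : ∀ v : Fin m →₀ ℕ, ∃ Cv : MvPolynomial (Fin (k + 1)) ℂ, v ∈ g.support →
      ∀ p : Fin (k + 1) → ℂ, p j ≠ 0 →
        eval p Cv = p j ^ (M - N₀ * ∑ i, v i) * eval (pr j p) (coeff v g) := by
    intro v
    by_cases hv : v ∈ g.support
    · obtain ⟨Cv, h1⟩ := exists_homog j (coeff v g) (hdc v hv)
      exact ⟨Cv, fun _ => h1⟩
    · exact ⟨0, fun h => absurd h hv⟩
  choose Cc hCc using hC
  set g' : MvPolynomial (Fin m) (MvPolynomial (Fin (k + 1)) ℂ) :=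
    ∑ v ∈ g.support, monomial v (X j * Cc v) with hg'
  have hcoeff : ∀ v, coeff v g' = if v ∈ g.support then X j * Cc v else 0 := by
    intro v
    rw [hg', coeff_sum]
    simp_rw [coeff_monomial]
    rw [Finset.sum_ite_eq']
  -- powers
  have hpow : ∀ (r : ℂ), r ≠ 0 → ∀ v ∈ g.support,
      r ^ (M - N₀ * ∑ i, v i) * (r ^ N₀) ^ (∑ i, v i) = r ^ M := by
    intro r _ v hv
    rw [← pow_mul, ← pow_add, Nat.sub_add_cancel (hMv v hv)]
  refine ⟨X j * A, U, g', ?_, ?_, ?_⟩
  · refine MvPolynomial.funext fun p => ?_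
    have hRHS : eval p (eval U g') = ∑ v ∈ g.support,
        p j * eval p (Cc v) * ∏ i, eval p (U i) ^ v i := by
      rw [hg', map_sum, map_sum]
      refine Finset.sum_congr rfl fun v _ => ?_
      rw [eval_monomial, map_mul, map_mul, eval_X, Finsupp.prod_fintype _ _ (fun i => pow_zero _),
        map_prod]
      simp_rw [map_pow]
    rw [hRHS, map_mul, map_mul, eval_X]
    by_cases hp : p j = 0
    · rw [hp]
      simp
    · have h1 : ∀ v ∈ g.support, p j * eval p (Cc v) * ∏ i, eval p (U i) ^ v i =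
          p j ^ (M + 1) * (eval (pr j p) (coeff v g) * ∏ i, eval (pr j p) (u i) ^ v i) := by
        intro v hv
        rw [hCc v hv p hp]
        simp_rw [hU _ p hp, mul_pow]
        rw [Finset.prod_mul_distrib, Finset.prod_pow_eq_pow_sum]
        have h2 := hpow (p j) hp v hv
        rw [pow_succ, ← h2]
        ring
      rw [Finset.sum_congr rfl h1, ← Finset.mul_sum, hA p hp, eval_cone hh j p hp]
      have h3 := congrArg (eval (pr j p)) hag
      have h4 : eval (pr j p) (eval u g) = ∑ v ∈ g.support,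
          eval (pr j p) (coeff v g) * ∏ i, eval (pr j p) (u i) ^ v i := by
        rw [eval_eq' u g, map_sum]
        refine Finset.sum_congr rfl fun v _ => ?_
        rw [map_mul, map_prod]
        simp_rw [map_pow]
      rw [map_mul, h4] at h3
      rw [← h3]
      have h5 : p j ^ (M + 1) = p j * p j ^ (M - d) * p j ^ d := by
        rw [mul_assoc, ← pow_add, Nat.sub_add_cancel (by omega), pow_succ']
      rw [h5]
      ring
  · intro v hv
    refine hsup v ?_
    by_contra hc
    rw [mem_support_iff, hcoeff, if_neg hc] at hv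
    exact hv rfl
  · rintro p ⟨hp, hpW⟩
    obtain ⟨h1, h2, h3, h4⟩ := hW _ hpW
    have hr0 : p j ^ N₀ ≠ 0 := pow_ne_zero _ hp
    refine ⟨?_, fun i => ?_, ?_, ?_⟩
    · rw [map_mul, eval_X, hA p hp]
      exact mul_ne_zero hp (mul_ne_zero (pow_ne_zero _ hp) h1)
    · rw [hU i p hp, h2 i, mul_zero]
    · rw [Fintype.linearIndependent_iff] at h3 ⊢
      intro b hb i
      refine h3 b ?_ i
      funext t
      have h5 := congrFun hb (j.succAbove t)
      rw [Finset.sum_apply] at h5 ⊢
      simp only [Pi.smul_apply, smul_eq_mul, Pi.zero_apply] at h5 ⊢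
      have h6 : ∑ i, b i * eval p (pderiv (j.succAbove t) (U i)) =
          (p j ^ N₀ * (p j)⁻¹) * ∑ i, b i * eval (pr j p) (pderiv t (u i)) := by
        rw [Finset.mul_sum]
        refine Finset.sum_congr rfl fun i _ => ?_
        rw [pderiv_homog j (hU i) p hp t]
        ring
      rw [h6] at h5
      exact (mul_eq_zero.1 h5).resolve_left (mul_ne_zero hr0 (inv_ne_zero hp))
    · intro y hy
      set s : ℂ := (p j ^ N₀)⁻¹ with hs
      have hs0 : s ≠ 0 := inv_ne_zero hr0
      have hy' : (fun i => s * y i) ≠ 0 := by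
        intro hc
        apply hy
        funext i
        have := congrFun hc i
        exact (mul_eq_zero.1 this).resolve_left hs0
      obtain ⟨l, hl⟩ := h4 _ hy'
      refine ⟨l, ?_⟩
      set Lq := weightedHomogeneousComponent w N (map (eval (pr j p)) g) with hLq
      set Lp := weightedHomogeneousComponent w N (map (eval p) g') with hLp
      have hLL : Lp = C (p j ^ (M + 1)) *
          aeval (fun i => C s * X i : Fin m → MvPolynomial (Fin m) ℂ) Lq := by
        ext v
        rw [coeff_C_mul, coeff_scale, hLp, hLq, coeff_weightedHomogeneousComponent,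
          coeff_weightedHomogeneousComponent, coeff_map, coeff_map, hcoeff]
        by_cases hwv : Finsupp.weight w v = N
        · rw [if_pos hwv, if_pos hwv]
          by_cases hv : v ∈ g.support
          · rw [if_pos hv, map_mul, eval_X, hCc v hv p hp]
            have h7 := hpow (p j) hp v hv
            rw [pow_succ, ← h7, hs, inv_pow]
            have h8 : (p j ^ N₀) ^ (∑ i, v i) ≠ 0 := pow_ne_zero _ hr0
            field_simp
          · rw [if_neg hv, notMem_support_iff.1 hv, map_zero, map_zero, mul_zero, mul_zero]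
        · rw [if_neg hwv, if_neg hwv, mul_zero, mul_zero]
      have hder : pderiv l Lp = C (p j ^ (M + 1)) *
          (aeval (fun i => C s * X i : Fin m → MvPolynomial (Fin m) ℂ) (pderiv l Lq) * C s) := by
        rw [hLL, pderiv_C_mul, pderiv_aeval, Finset.sum_eq_single l]
        · rw [pderiv_C_mul, pderiv_X_self, mul_one]
        · intro i _ hi
          rw [pderiv_C_mul, pderiv_X_of_ne hi, mul_zero, mul_zero]
        · exact fun h => absurd (Finset.mem_univ l) h
      rw [hder, map_mul, map_mul, eval_C, eval_C, eval_aeval]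
      simp only [map_mul, eval_C, eval_X]
      exact mul_ne_zero (pow_ne_zero _ hp) (mul_ne_zero hl hs0)

end CC

end MPb07157
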