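import Pool.Agent.Lib.MP_b07157_agSG.Defs
import Pool.Agent.Lib.MP_b07157_agM.TDefs

/-!
# The Hessian of a homogeneous polynomial and of its restriction to an affine chart
-/

noncomputable section

namespace MPb07157

open MvPolynomial

namespace CC

variable {k : ℕ}

theorem ConeR.eval_ch (f : MvPolynomial (Fin (k + 1)) ℂ) (j : Fin (k + 1)) (y : Fin k → ℂ) :
    eval y (ch f j) = eval (j.insertNth (α := fun _ => ℂ) 1 y) f := by
  unfold ch
  have h1 : ((aeval y : MvPolynomial (Fin k) ℂ →ₐ[ℂ] ℂ).comp
      (aeval (j.insertNth (α := fun _ => MvPolynomial (Fin k) ℂ) 1 X))) =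
      aeval (j.insertNth (α := fun _ => ℂ) 1 y) := by
    refine MvPolynomial.algHom_ext fun i => ?_
    rw [AlgHom.comp_apply, aeval_X, aeval_X]
    refine j.succAboveCases ?_ (fun i => ?_) i
    · rw [Fin.insertNth_apply_same, Fin.insertNth_apply_same, map_one]
    · rw [Fin.insertNth_apply_succAbove, Fin.insertNth_apply_succAbove, aeval_X]
  have h2 := DFunLike.congr_fun h1 f
  rw [AlgHom.comp_apply, MvPolynomial.aeval_eq_eval, MvPolynomial.aeval_eq_eval] at h2
  exact h2

theorem ConeR.pderiv_ch (f : MvPolynomial (Fin (k + 1)) ℂ) (j : Fin (k + 1)) (i : Fin k) :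
    pderiv i (ch f j) = ch (pderiv (j.succAbove i) f) j := by
  unfold ch
  induction f using MvPolynomial.induction_on with
  | C a => simp
  | add p q hp hq => simp only [map_add, hp, hq]
  | mul_X p n hp =>
    rw [map_mul, Derivation.leibniz, Derivation.leibniz, hp, aeval_X]
    simp only [smul_eq_mul, map_add, map_mul, aeval_X]
    have h : pderiv i ((j.insertNth (α := fun _ => MvPolynomial (Fin k) ℂ) 1 X) n) =
        aeval (j.insertNth (α := fun _ => MvPolynomial (Fin k) ℂ) 1 X)
          (pderiv (j.succAbove i) (X n : MvPolynomial (Fin (k + 1)) ℂ)) := by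
      refine j.succAboveCases ?_ (fun l => ?_) n
      · rw [Fin.insertNth_apply_same, pderiv_one, pderiv_X_of_ne (Fin.succAbove_ne j i).symm,
          map_zero]
      · rw [Fin.insertNth_apply_succAbove]
        by_cases hl : l = i
        · subst hl
          rw [pderiv_X_self, pderiv_X_self, map_one]
        · rw [pderiv_X_of_ne hl, pderiv_X_of_ne (fun h => hl (Fin.succAbove_right_injective h)),
            map_zero]
    rw [h]

theorem ConeR.eval_smul {n : ℕ} {f : MvPolynomial (Fin n) ℂ} {d : ℕ} (hf : f.IsHomogeneous d)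
    (c : ℂ) (x : Fin n → ℂ) : eval (c • x) f = c ^ d * eval x f := by
  rw [eval_eq', eval_eq', Finset.mul_sum]
  refine Finset.sum_congr rfl fun v hv => ?_
  have h1 : ∑ i, v i = d := by
    have := hf (mem_support_iff.1 hv)
    rw [← this]
    simp [Finsupp.weight_apply, Finsupp.sum_fintype]
  simp only [Pi.smul_apply, smul_eq_mul, mul_pow, Finset.prod_mul_distrib]
  rw [Finset.prod_pow_eq_pow_sum, h1]
  ring

theorem ConeR.euler {n : ℕ} {f : MvPolynomial (Fin n) ℂ} {d : ℕ} (hf : f.IsHomogeneous d)
    (x : Fin n → ℂ) : ∑ i, x i * eval x (pderiv i f) = d * eval x f := by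
  have h := congrArg (eval x) hf.sum_X_mul_pderiv
  rw [map_sum] at h
  simp only [map_mul, eval_X, nsmul_eq_mul, map_natCast] at h
  exact h

theorem ConeR.pderiv_comm (s t : Fin k) (q : MvPolynomial (Fin k) ℂ) :
    pderiv s (pderiv t q) = pderiv t (pderiv s q) := by
  classical
  ext m
  rw [coeff_pderiv, coeff_pderiv, coeff_pderiv, coeff_pderiv]
  by_cases h : s = t
  · subst h; rfl
  · have h1 : (m + Finsupp.single s 1 : Fin k →₀ ℕ) t = m t := by
      simp [h]
    have h2 : (m + Finsupp.single t 1 : Fin k →₀ ℕ) s = m s := by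
      simp [Ne.symm h]
    rw [h1, h2, add_right_comm]
    ring

/-- Values. -/
theorem eval_eq_ch {f : MvPolynomial (Fin (k + 1)) ℂ} {d : ℕ} (hh : f.IsHomogeneous d)
    {j : Fin (k + 1)} {p : Fin (k + 1) → ℂ} (hp : p j ≠ 0) :
    eval p f = p j ^ d * eval (pr j p) (ch f j) := by
  have h1 : p = p j • (j.insertNth (α := fun _ => ℂ) 1 (pr j p)) := by
    funext i
    rw [Pi.smul_apply, smul_eq_mul]
    refine j.succAboveCases ?_ (fun i => ?_) i
    · rw [Fin.insertNth_apply_same, mul_one]
    · rw [Fin.insertNth_apply_succAbove, pr]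
      field_simp
  rw [ConeR.eval_ch, ← ConeR.eval_smul hh, ← h1]

/-- The critical zeros of the restriction are those of `f` (Euler's relation). -/
theorem crit_of_ch {f : MvPolynomial (Fin (k + 1)) ℂ} {d : ℕ} (hh : f.IsHomogeneous d)
    {j : Fin (k + 1)} {p : Fin (k + 1) → ℂ} (hp : p j ≠ 0)
    (h0 : eval (pr j p) (ch f j) = 0) (h : ∀ i, eval (pr j p) (pderiv i (ch f j)) = 0) :
    eval p f = 0 ∧ ∀ i, eval p (pderiv i f) = 0 := by
  have hf : eval p f = 0 := by rw [eval_eq_ch hh hp, h0, mul_zero]
  have hs : ∀ i : Fin k, eval p (pderiv (j.succAbove i) f) = 0 := by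
    intro i
    rw [eval_eq_ch hh.pderiv hp, ← ConeR.pderiv_ch, h i, mul_zero]
  refine ⟨hf, fun i => ?_⟩
  refine j.succAboveCases ?_ (fun l => hs l) i
  have he := ConeR.euler hh p
  rw [Fin.sum_univ_succAbove _ j, hf, mul_zero] at he
  simp only [hs, mul_zero, Finset.sum_const_zero, add_zero] at he
  exact (mul_eq_zero.1 he).resolve_left hp

/-- Conversely. -/
theorem ch_of_crit {f : MvPolynomial (Fin (k + 1)) ℂ} {d : ℕ} (hh : f.IsHomogeneous d)
    {j : Fin (k + 1)} {p : Fin (k + 1) → ℂ} (hp : p j ≠ 0)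
    (h : ∀ i, eval p (pderiv i f) = 0) (i : Fin k) :
    eval (pr j p) (pderiv i (ch f j)) = 0 := by
  have h1 := h (j.succAbove i)
  rw [eval_eq_ch hh.pderiv hp, ← ConeR.pderiv_ch] at h1
  exact (mul_eq_zero.1 h1).resolve_left (pow_ne_zero _ hp)

/-- At a critical point `p`, `p_j ≠ 0`, the vector `p` is in the kernel of the Hessian matrix of `f`
(Euler's relation for the `∂_i f`), so the row and the column `j` are combinations of the others; the
remaining submatrix is `p_j^(d-2)` times the Hessian matrix of the restriction at `pr j p`, for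
`d ≥ 2` (both matrices are `0` if `d < 2`). -/
theorem rank_le {f : MvPolynomial (Fin (k + 1)) ℂ} {d : ℕ} (hh : f.IsHomogeneous d)
    {j : Fin (k + 1)} {p : Fin (k + 1) → ℂ} (hp : p j ≠ 0)
    (h : ∀ i, eval p (pderiv i f) = 0) :
    (YG.hessAt f p).rank ≤ (YG.hessAt (ch f j) (pr j p)).rank := by
  classical
  set N : Matrix (Fin (k + 1)) (Fin k) ℂ := Matrix.of fun a l =>
    (j.insertNth (α := fun _ => ℂ) (-(p (j.succAbove l) / p j))
      (fun i => if i = l then 1 else 0)) a with hN
  have hNj : ∀ l, N j l = -(p (j.succAbove l) / p j) := by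
    intro l
    rw [hN, Matrix.of_apply, Fin.insertNth_apply_same]
  have hNs : ∀ i l, N (j.succAbove i) l = if i = l then 1 else 0 := by
    intro i l
    rw [hN, Matrix.of_apply, Fin.insertNth_apply_succAbove]
  have hrow : ∀ b, ∑ a, p a * eval p (pderiv a (pderiv b f)) = 0 := by
    intro b
    rw [ConeR.euler hh.pderiv p, h b, mul_zero]
  have hcol : ∀ a, ∑ b, p b * eval p (pderiv a (pderiv b f)) = 0 := by
    intro a
    rw [← hrow a]
    refine Finset.sum_congr rfl fun b _ => ?_
    rw [ConeR.pderiv_comm]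
  have hss : ∀ i l, eval p (pderiv (j.succAbove i) (pderiv (j.succAbove l) f)) =
      p j ^ (d - 1 - 1) * YG.hessAt (ch f j) (pr j p) i l := by
    intro i l
    rw [eval_eq_ch hh.pderiv.pderiv hp, ← ConeR.pderiv_ch, ← ConeR.pderiv_ch]
    rfl
  have key : YG.hessAt f p = ((p j ^ (d - 1 - 1)) • N) * YG.hessAt (ch f j) (pr j p) * N.transpose := by
    have hg : ∀ (g : Fin (k + 1) → ℂ), ∑ a, p a * g a = 0 →
        ∀ a, g a = ∑ l, N a l * g (j.succAbove l) := by
      intro g hg a
      refine j.succAboveCases ?_ (fun i => ?_) a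
      · rw [Fin.sum_univ_succAbove _ j] at hg
        simp only [hNj]
        refine mul_left_cancel₀ hp ?_
        rw [Finset.mul_sum]
        have e1 : ∀ l, p j * (-(p (j.succAbove l) / p j) * g (j.succAbove l)) =
            -(p (j.succAbove l) * g (j.succAbove l)) := by
          intro l
          field_simp
        simp only [e1, Finset.sum_neg_distrib]
        exact eq_neg_of_add_eq_zero_left hg
      · simp only [hNs]
        simp
    ext a b
    have e1 : YG.hessAt f p a b = ∑ l, N a l * YG.hessAt f p (j.succAbove l) b :=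
      hg (fun a => YG.hessAt f p a b) (hrow b) a
    have e2 : ∀ l, YG.hessAt f p (j.succAbove l) b =
        ∑ l', N b l' * YG.hessAt f p (j.succAbove l) (j.succAbove l') := fun l =>
      hg (fun b => YG.hessAt f p (j.succAbove l) b) (hcol (j.succAbove l)) b
    have e3 : ∀ l l', YG.hessAt f p (j.succAbove l) (j.succAbove l') =
        p j ^ (d - 1 - 1) * YG.hessAt (ch f j) (pr j p) l l' := hss
    rw [e1, Matrix.mul_apply]
    simp only [Matrix.mul_apply, Matrix.smul_apply, Matrix.transpose_apply, smul_eq_mul,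
      Finset.sum_mul, e2, e3, Finset.mul_sum]
    rw [Finset.sum_comm]
    refine Finset.sum_congr rfl fun l' _ => Finset.sum_congr rfl fun l _ => ?_
    ring
  rw [key, Matrix.mul_assoc]
  exact (Matrix.rank_mul_le_right _ _).trans (Matrix.rank_mul_le_left _ _)

end CC

end MPb07157
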