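import Pool.Agent.Lib.MP_b07157_agSF.Glob
import Pool.Agent.Lib.MP_b07157_agSG.ConeR
import Pool.Agent.Lib.MP_b07157_agSG.ConeS

/-!
# Cones over projective hypersurfaces with singular points of corank at most two
-/

noncomputable section

namespace MPb07157

open MvPolynomial

variable {n : ℕ}

namespace CC

variable {k : ℕ}

theorem pr_ins (j : Fin (k + 1)) (x : Fin k → ℂ) :
    pr j (j.insertNth (α := fun _ => ℂ) 1 x) = x := by
  funext i
  unfold pr
  rw [Fin.insertNth_apply_succAbove, Fin.insertNth_apply_same, div_one]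

/-- The restriction to `x_j = 1`, translated. -/
theorem chartEq_eq (f : MvPolynomial (Fin (k + 1)) ℂ) (j : Fin (k + 1)) (x : Fin k → ℂ) :
    YQ.chartEq f (j.insertNth (α := fun _ => ℂ) 1 x) j = translate x (ch f j) := by
  unfold YQ.chartEq ch translate
  have h : (aeval (fun i => X i + C (x i)) : MvPolynomial (Fin k) ℂ →ₐ[ℂ] _).comp
      (aeval (j.insertNth (α := fun _ => MvPolynomial (Fin k) ℂ) 1 X)) =
      aeval (j.insertNth (α := fun _ => MvPolynomial (Fin k) ℂ) 1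
        (fun i => X i + C ((j.insertNth (α := fun _ => ℂ) 1 x) (j.succAbove i)))) := by
    refine MvPolynomial.algHom_ext fun i => ?_
    rw [AlgHom.comp_apply, aeval_X, aeval_X]
    refine j.succAboveCases ?_ (fun i => ?_) i
    · rw [Fin.insertNth_apply_same, Fin.insertNth_apply_same, map_one]
    · rw [Fin.insertNth_apply_succAbove, Fin.insertNth_apply_succAbove, aeval_X,
        Fin.insertNth_apply_succAbove]
  exact (DFunLike.congr_fun h f).symm

/-- The line over a point of corank at most two. -/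
theorem mono_point {f : MvPolynomial (Fin (k + 1)) ℂ} (hf : f ≠ 0) {d : ℕ}
    (hh : f.IsHomogeneous d) {j : Fin (k + 1)} {x : Fin k → ℂ}
    (hr : k ≤ (YG.hessAt (ch f j) x).rank + 2) : MonoAlong f (cone j {x}) := by
  set q : Fin (k + 1) → ℂ := j.insertNth (α := fun _ => ℂ) 1 x with hq
  have hqj : q j = 1 := by rw [hq, Fin.insertNth_apply_same]
  have h1 : cone j {x} ⊆ CQ.LineS q j := by
    rintro p ⟨hp, hpx⟩
    refine ⟨by rwa [eval_X], fun i _ => ?_⟩
    rw [map_sub, map_mul, map_mul, eval_C, eval_C, eval_X, eval_X, hqj, one_mul]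
    refine j.succAboveCases ?_ (fun i => ?_) i
    · rw [hqj, one_mul, sub_self]
    · have h2 := congrFun (Set.mem_singleton_iff.1 hpx) i
      rw [hq, Fin.insertNth_apply_succAbove, ← h2]
      unfold pr
      rw [div_mul_cancel₀ _ hp, sub_self]
  refine (MonoAlong.of_trivAlong hf (CQ.trivAlong_line hh (b := q) (q := q) (j := j) ?_ ?_)
    fun h2 h3 => ?_).mono h1
  · rw [hqj]
    exact one_ne_zero
  · intro i
    rw [hqj, one_mul]
  · refine SU.smcLoc_corank h2 h3 ?_
    rw [hq, chartEq_eq, CK.hess_translate]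
    exact hr

end CC

open CC in
/-- **Homogeneous polynomials** with the condition `ConeRoot`, whose critical zeros `p ≠ 0` outside
sets along which the conjecture is known have a Hessian of rank at least `n - 3`. -/
theorem SmcLoc.of_coneCk {f : MvPolynomial (Fin n) ℂ} (hf : f ≠ 0) {d : ℕ} (hd : 0 < d)
    (hh : f.IsHomogeneous d) {T : Set (Set (Fin n → ℂ))} (hT : T.Finite)
    (hTW : ∀ W ∈ T, IsConstr W ∧ MonoAlong f W)
    (h : ∀ p, p ≠ 0 → eval p f = 0 → (∀ i, eval p (pderiv i f) = 0) →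
      (∃ W ∈ T, p ∈ W) ∨ n ≤ (YG.hessAt f p).rank + 3) (hroot : ConeRoot f d ∨ d = n) :
    SmcLoc f := by
  classical
  rcases n with _ | k
  · exfalso
    apply hf
    ext v
    rw [Subsingleton.elim v 0, hh.coeff_eq_zero (by simp; omega), coeff_zero]
  -- the charts
  have hcov : ∀ j : Fin (k + 1), ∃ T' : Set (Set (Fin k → ℂ)), T'.Finite ∧
      (∀ W ∈ T', IsConstr W ∧ ((∃ (m : ℕ) (w : Fin m → ℕ) (N : ℕ), SqhAlong (ch f j) W w N) ∨
        (∃ x, W = {x} ∧ k ≤ (YG.hessAt (ch f j) x).rank + 2) ∨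
        ∀ x ∈ W, ¬ k ≤ (YG.hessAt (ch f j) x).rank + 2)) ∧
      ∀ x, eval x (ch f j) = 0 → (∀ i, eval x (pderiv i (ch f j)) = 0) → ∃ W ∈ T', x ∈ W := by
    intro j
    set I : Ideal (MvPolynomial (Fin k) ℂ) :=
      Ideal.span (insert (ch f j) (Set.range fun i => pderiv i (ch f j))) with hI
    obtain ⟨T', h1, h2, h3⟩ := CK.exists_fin_cover (fun W => IsConstr W ∧
      ((∃ (m : ℕ) (w : Fin m → ℕ) (N : ℕ), SqhAlong (ch f j) W w N) ∨
        (∃ x, W = {x} ∧ k ≤ (YG.hessAt (ch f j) x).rank + 2) ∨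
        ∀ x ∈ W, ¬ k ≤ (YG.hessAt (ch f j) x).rank + 2)) I (fun 𝔭 h𝔭 hI𝔭 => by
      have hf𝔭 : ch f j ∈ 𝔭 := hI𝔭 (Ideal.subset_span (Set.mem_insert _ _))
      have hs : ∀ i, pderiv i (ch f j) ∈ 𝔭 := fun i =>
        hI𝔭 (Ideal.subset_span (Set.mem_insert_of_mem _ ⟨i, rfl⟩))
      have h1𝔭 : (1 : MvPolynomial (Fin k) ℂ) ∉ 𝔭 := fun h =>
        h𝔭.ne_top ((Ideal.eq_top_iff_one _).2 h)
      by_cases hfin : (CK.Vz 𝔭).Finite
      · refine ⟨(fun p => {p}) '' CK.Vz 𝔭, hfin.image _, ?_, 1, h1𝔭, fun q hq _ =>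
          ⟨{q}, ⟨q, hq, rfl⟩, rfl⟩⟩
        rintro _ ⟨q, hq, rfl⟩
        refine ⟨isConstr_point q, ?_⟩
        by_cases hr : k ≤ (YG.hessAt (ch f j) q).rank + 2
        · exact Or.inr (Or.inl ⟨q, rfl, hr⟩)
        · refine Or.inr (Or.inr fun x hx => ?_)
          rw [Set.mem_singleton_iff.1 hx]
          exact hr
      · by_cases hex : ∃ q₀ ∈ CK.Vz 𝔭, k ≤ (YG.hessAt (ch f j) q₀).rank + 2
        · obtain ⟨q₀, hq₀, hr⟩ := hex
          obtain ⟨W, hWc, hWs, δ, hδ, hW⟩ := CK.exists_stratum h𝔭 hf𝔭 hs hfin hq₀ hr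
          refine ⟨{W}, Set.finite_singleton W, ?_, δ, hδ, fun q hq hq0 => ⟨W, rfl, hW q hq hq0⟩⟩
          rintro _ rfl
          exact ⟨hWc, Or.inl hWs⟩
        · push Not at hex
          obtain ⟨G, hG⟩ : 𝔭.FG := IsNoetherian.noetherian 𝔭
          have hVc : IsConstr (CK.Vz 𝔭) := by
            have e1 : CK.Vz 𝔭 = {x | ∀ g ∈ G, eval x g = 0} := by
              ext x
              constructor
              · intro hx g hg
                exact hx g (by rw [← hG]; exact Ideal.subset_span hg)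
              · intro hx g hg
                have h4 : 𝔭 ≤ RingHom.ker (eval x) := by
                  rw [← hG, Ideal.span_le]
                  exact fun g hg => hx g hg
                exact h4 hg
            rw [e1]
            exact isConstr_forall_mem _ _ fun g _ => isConstr_eq_zero g
          refine ⟨{CK.Vz 𝔭}, Set.finite_singleton _, ?_, 1, h1𝔭, fun q hq _ => ⟨_, rfl, hq⟩⟩
          rintro _ rfl
          exact ⟨hVc, Or.inr (Or.inr fun x hx => not_le.2 (hex x hx))⟩)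
    refine ⟨T', h1, h2, fun x hx0 hx1 => h3 x fun g hg => ?_⟩
    have h4 : I ≤ RingHom.ker (eval x) := by
      rw [hI, Ideal.span_le]
      rintro _ (rfl | ⟨i, rfl⟩)
      · exact hx0
      · exact hx1 i
    exact h4 hg
  choose T' hT'1 hT'2 hT'3 using hcov
  set S : Set (Set (Fin (k + 1) → ℂ)) := ⋃ j, (cone j) '' {W ∈ T' j |
    (∃ (m : ℕ) (w : Fin m → ℕ) (N : ℕ), SqhAlong (ch f j) W w N) ∨
      ∃ x, W = {x} ∧ k ≤ (YG.hessAt (ch f j) x).rank + 2} with hS
  have hSfin : S.Finite := by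
    rw [hS]
    exact Set.finite_iUnion fun j => ((hT'1 j).subset (Set.sep_subset _ _)).image _
  have hSW : ∀ W ∈ S, IsConstr W ∧ MonoAlong f W := by
    intro W hW
    rw [hS] at hW
    obtain ⟨j, W', ⟨hW', hc⟩, rfl⟩ := Set.mem_iUnion.1 hW
    refine ⟨isConstr_cone j (hT'2 j W' hW').1, ?_⟩
    rcases hc with ⟨m, w, N, hq⟩ | ⟨x, rfl, hr⟩
    · exact MonoAlong.of_sqhAlong hf (sqhAlong_cone hh j hq)
    · exact mono_point hf hh hr
  set T₀ : Set (Set (Fin (k + 1) → ℂ)) := (T ∪ S) ∪ Set.range (WJ f) with hT₀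
  have hT₀fin : T₀.Finite := (hT.union hSfin).union (Set.finite_range _)
  have hT₀W : ∀ W ∈ T₀, IsConstr W ∧ MonoAlong f W := by
    rintro W ((hW | hW) | ⟨j, rfl⟩)
    · exact hTW W hW
    · exact hSW W hW
    · exact ⟨isConstr_WJ f j, MonoAlong.of_trivAlong hf (CQ.trivAlong_WJ f j)
        fun _ _ => SU.smcLoc_X 0⟩
  have hcov₀ : ∀ p, p ≠ 0 → eval p f = 0 → ∃ W ∈ T₀, p ∈ W := by
    intro p hp0 hp
    by_cases hc : ∀ i, eval p (pderiv i f) = 0
    · rcases h p hp0 hp hc with ⟨W, hW, hpW⟩ | hr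
      · exact ⟨W, Or.inl (Or.inl hW), hpW⟩
      · obtain ⟨j, hj⟩ := Function.ne_iff.1 hp0
        have hj' : p j ≠ 0 := hj
        have hx0 : eval (pr j p) (ch f j) = 0 := by
          rw [eval_eq_ch hh hj'] at hp
          exact (mul_eq_zero.1 hp).resolve_left (pow_ne_zero _ hj')
        obtain ⟨W', hW', hpW'⟩ := hT'3 j (pr j p) hx0 fun i => ch_of_crit hh hj' hc i
        have hrk := rank_le hh hj' hc
        rcases (hT'2 j W' hW').2 with hq | hq | hq
        · exact ⟨cone j W', Or.inl (Or.inr (Set.mem_iUnion.2 ⟨j, W', ⟨hW', Or.inl hq⟩, rfl⟩)),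
            hj', hpW'⟩
        · exact ⟨cone j W', Or.inl (Or.inr (Set.mem_iUnion.2 ⟨j, W', ⟨hW', Or.inr hq⟩, rfl⟩)),
            hj', hpW'⟩
        · exfalso
          apply hq _ hpW'
          omega
    · obtain ⟨j, hj⟩ := exists_mem_WJ hp hc
      exact ⟨WJ f j, Or.inr ⟨j, rfl⟩, hj⟩
  rcases hroot with hroot | hroot
  · exact SmcLoc.of_coneM hf hd hh hT₀fin hcov₀ hT₀W hroot
  · intro s₀ hs hpole b hb
    have hbg : IsBernsteinSato f b := isBernsteinSato_of_form_homogeneous hh hb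
    by_cases hs1 : s₀ = -1
    · have h0 : (0 : Fin (k + 1) →₀ ℕ) ∉ f.support := by
        rw [notMem_support_iff]
        exact hh.coeff_eq_zero (by simp; omega)
      rw [hs1]
      exact neg_one_root hf h0 b hb
    have hsd : s₀ ≠ -(((k + 1 : ℕ) : ℚ) / d) := by
      rw [hroot, div_self (by exact_mod_cast (Nat.succ_ne_zero k))]
      exact hs1
    by_contra hcon
    apply hpole
    refine (zmot_mem_of_coneM hf hd hh hT₀fin hcov₀ (fun W hW => (hT₀W W hW).1) hsd
      fun W hW V hV hVc hV0 => ?_).2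
    by_contra hser
    exact hcon ((hT₀W W hW).2 V hV hVc hV0 s₀ hs hs1 hser b hbg)

end MPb07157
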