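import Pool.Agent.Lib.MP_b07157_agSG.Final

/-!
# Cones: the general lemma
-/

noncomputable section

namespace MPb07157

open MvPolynomial

variable {n : ℕ}

namespace CC

/-- Along `W` the polynomial is semi-quasi-homogeneous, or `W` is a point at which the local version of
the conjecture is known. -/
def Good (g : MvPolynomial (Fin n) ℂ) (W : Set (Fin n → ℂ)) : Prop :=
  (∃ (m : ℕ) (w : Fin m → ℕ) (N : ℕ), SqhAlong g W w N) ∨
    ∃ x, W = {x} ∧
      (translate x g ≠ 0 → coeff 0 (translate x g) = 0 → SmcLoc (translate x g))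

theorem Good.mono {g : MvPolynomial (Fin n) ℂ} (hg : g ≠ 0) {W : Set (Fin n → ℂ)}
    (h : Good g W) : MonoAlong g W := by
  rcases h with ⟨m, w, N, h⟩ | ⟨x, rfl, h⟩
  · exact MonoAlong.of_sqhAlong hg h
  · exact MonoAlong.of_point hg h

/-- The critical zeros of corank at most two. -/
theorem exists_cover_corank' (g : MvPolynomial (Fin n) ℂ) :
    ∃ T : Set (Set (Fin n → ℂ)), T.Finite ∧ (∀ W ∈ T, IsConstr W ∧ Good g W) ∧
      ∀ p, eval p g = 0 → (∀ i, eval p (pderiv i g) = 0) → n ≤ (YG.hessAt g p).rank + 2 →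
        ∃ W ∈ T, p ∈ W := by
  classical
  set I : Ideal (MvPolynomial (Fin n) ℂ) :=
    Ideal.span (insert g (Set.range fun i => pderiv i g)) with hI
  obtain ⟨T', h1, h2, h3⟩ := CK.exists_fin_cover (fun W => IsConstr W ∧ (Good g W ∨
      ∀ x ∈ W, ¬ n ≤ (YG.hessAt g x).rank + 2)) I (fun 𝔭 h𝔭 hI𝔭 => by
    have hf𝔭 : g ∈ 𝔭 := hI𝔭 (Ideal.subset_span (Set.mem_insert _ _))
    have hs : ∀ i, pderiv i g ∈ 𝔭 := fun i =>
      hI𝔭 (Ideal.subset_span (Set.mem_insert_of_mem _ ⟨i, rfl⟩))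
    have h1𝔭 : (1 : MvPolynomial (Fin n) ℂ) ∉ 𝔭 := fun h =>
      h𝔭.ne_top ((Ideal.eq_top_iff_one _).2 h)
    by_cases hfin : (CK.Vz 𝔭).Finite
    · refine ⟨(fun p => {p}) '' CK.Vz 𝔭, hfin.image _, ?_, 1, h1𝔭, fun q hq _ =>
        ⟨{q}, ⟨q, hq, rfl⟩, rfl⟩⟩
      rintro _ ⟨q, hq, rfl⟩
      refine ⟨isConstr_point q, ?_⟩
      by_cases hr : n ≤ (YG.hessAt g q).rank + 2
      · refine Or.inl (Or.inr ⟨q, rfl, fun h1 h2 => SU.smcLoc_corank h1 h2 ?_⟩)
        rw [CK.hess_translate]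
        exact hr
      · refine Or.inr fun x hx => ?_
        rw [Set.mem_singleton_iff.1 hx]
        exact hr
    · by_cases hex : ∃ q₀ ∈ CK.Vz 𝔭, n ≤ (YG.hessAt g q₀).rank + 2
      · obtain ⟨q₀, hq₀, hr⟩ := hex
        obtain ⟨W, hWc, hWs, δ, hδ, hW⟩ := CK.exists_stratum h𝔭 hf𝔭 hs hfin hq₀ hr
        refine ⟨{W}, Set.finite_singleton W, ?_, δ, hδ, fun q hq hq0 => ⟨W, rfl, hW q hq hq0⟩⟩
        rintro _ rfl
        exact ⟨hWc, Or.inl (Or.inl hWs)⟩
      · push Not at hex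
        obtain ⟨G, hG⟩ : 𝔭.FG := IsNoetherian.noetherian 𝔭
        have hVc : IsConstr (CK.Vz 𝔭) := by
          have e1 : CK.Vz 𝔭 = {x | ∀ g ∈ G, eval x g = 0} := by
            ext x
            constructor
            · intro hx g hg
              exact hx g (by rw [← hG]; exact Ideal.subset_span hg)
            · intro hx g hg
              have h4 : 𝔭 ≤ RingHom.ker (eval x) := by
                rw [← hG, Ideal.span_le]
                exact fun g hg => hx g hg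
              exact h4 hg
          rw [e1]
          exact isConstr_forall_mem _ _ fun g _ => isConstr_eq_zero g
        refine ⟨{CK.Vz 𝔭}, Set.finite_singleton _, ?_, 1, h1𝔭, fun q hq _ => ⟨_, rfl, hq⟩⟩
        rintro _ rfl
        exact ⟨hVc, Or.inr fun x hx => not_le.2 (hex x hx)⟩)
  refine ⟨{W ∈ T' | Good g W}, h1.subset (Set.sep_subset _ _),
    fun W hW => ⟨(h2 W hW.1).1, hW.2⟩, fun p hp hc hr => ?_⟩
  obtain ⟨W, hW, hpW⟩ := h3 p (fun g' hg' => by
    have h4 : I ≤ RingHom.ker (eval p) := by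
      rw [hI, Ideal.span_le]
      rintro _ (rfl | ⟨i, rfl⟩)
      · exact hp
      · exact hc i
    exact h4 hg')
  rcases (h2 W hW).2 with h5 | h5
  · exact ⟨W, ⟨hW, h5⟩, hpW⟩
  · exact absurd hr (h5 p hpW)

variable {k : ℕ}

/-- The line over a point at which the local version of the conjecture is known. -/
theorem mono_line {f : MvPolynomial (Fin (k + 1)) ℂ} (hf : f ≠ 0) {d : ℕ}
    (hh : f.IsHomogeneous d) {j : Fin (k + 1)} {x : Fin k → ℂ}
    (h : translate x (ch f j) ≠ 0 → coeff 0 (translate x (ch f j)) = 0 →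
      SmcLoc (translate x (ch f j))) : MonoAlong f (cone j {x}) := by
  set q : Fin (k + 1) → ℂ := j.insertNth (α := fun _ => ℂ) 1 x with hq
  have hqj : q j = 1 := by rw [hq, Fin.insertNth_apply_same]
  have h1 : cone j {x} ⊆ CQ.LineS q j := by
    rintro p ⟨hp, hpx⟩
    refine ⟨by rwa [eval_X], fun i _ => ?_⟩
    rw [map_sub, map_mul, map_mul, eval_C, eval_C, eval_X, eval_X, hqj, one_mul]
    refine j.succAboveCases ?_ (fun i => ?_) i
    · rw [hqj, one_mul, sub_self]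
    · have h2 := congrFun (Set.mem_singleton_iff.1 hpx) i
      rw [hq, Fin.insertNth_apply_succAbove, ← h2]
      unfold pr
      rw [div_mul_cancel₀ _ hp, sub_self]
  refine (MonoAlong.of_trivAlong hf (CQ.trivAlong_line hh (b := q) (q := q) (j := j) ?_ ?_)
    fun h2 h3 => ?_).mono h1
  · rw [hqj]
    exact one_ne_zero
  · intro i
    rw [hqj, one_mul]
  · rw [hq, chartEq_eq] at h2 h3 ⊢
    exact h h2 h3

end CC

open CC in
/-- **Homogeneous polynomials** whose critical zeros `p ≠ 0`, outside sets along which the conjecture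
is known, are covered in the charts. -/
theorem SmcLoc.of_coneG {k : ℕ} {f : MvPolynomial (Fin (k + 1)) ℂ} (hf : f ≠ 0) {d : ℕ}
    (hd : 0 < d) (hh : f.IsHomogeneous d) {T : Set (Set (Fin (k + 1) → ℂ))} (hT : T.Finite)
    (hTW : ∀ W ∈ T, IsConstr W ∧ MonoAlong f W)
    (hcov : ∀ j : Fin (k + 1), ∃ T' : Set (Set (Fin k → ℂ)), T'.Finite ∧
      (∀ W ∈ T', IsConstr W ∧ CC.Good (ch f j) W) ∧
      ∀ p, p j ≠ 0 → eval p f = 0 → (∀ i, eval p (pderiv i f) = 0) →
        (∃ W ∈ T, p ∈ W) ∨ ∃ W ∈ T', pr j p ∈ W)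
    (hroot : d = k + 1 ∨ ConeRoot f d) : SmcLoc f := by
  classical
  choose T' hT'1 hT'2 hT'3 using hcov
  set S : Set (Set (Fin (k + 1) → ℂ)) := ⋃ j, (cone j) '' T' j with hS
  have hSfin : S.Finite := by
    rw [hS]
    exact Set.finite_iUnion fun j => (hT'1 j).image _
  have hSW : ∀ W ∈ S, IsConstr W ∧ MonoAlong f W := by
    intro W hW
    rw [hS] at hW
    obtain ⟨j, W', hW', rfl⟩ := Set.mem_iUnion.1 hW
    refine ⟨isConstr_cone j (hT'2 j W' hW').1, ?_⟩
    rcases (hT'2 j W' hW').2 with ⟨m, w, N, hq⟩ | ⟨x, rfl, hr⟩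
    · exact MonoAlong.of_sqhAlong hf (sqhAlong_cone hh j hq)
    · exact mono_line hf hh hr
  set T₀ : Set (Set (Fin (k + 1) → ℂ)) := (T ∪ S) ∪ Set.range (WJ f) with hT₀
  have hT₀fin : T₀.Finite := (hT.union hSfin).union (Set.finite_range _)
  have hT₀W : ∀ W ∈ T₀, IsConstr W ∧ MonoAlong f W := by
    rintro W ((hW | hW) | ⟨j, rfl⟩)
    · exact hTW W hW
    · exact hSW W hW
    · exact ⟨isConstr_WJ f j, MonoAlong.of_trivAlong hf (CQ.trivAlong_WJ f j)
        fun _ _ => SU.smcLoc_X 0⟩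
  have hcov₀ : ∀ p, p ≠ 0 → eval p f = 0 → ∃ W ∈ T₀, p ∈ W := by
    intro p hp0 hp
    by_cases hc : ∀ i, eval p (pderiv i f) = 0
    · obtain ⟨j, hj⟩ := Function.ne_iff.1 hp0
      rcases hT'3 j p hj hp hc with ⟨W, hW, hpW⟩ | ⟨W', hW', hpW'⟩
      · exact ⟨W, Or.inl (Or.inl hW), hpW⟩
      · exact ⟨cone j W', Or.inl (Or.inr (Set.mem_iUnion.2 ⟨j, W', hW', rfl⟩)), hj, hpW'⟩
    · obtain ⟨j, hj⟩ := exists_mem_WJ hp hc
      exact ⟨WJ f j, Or.inr ⟨j, rfl⟩, hj⟩
  rcases hroot with hroot | hroot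
  · intro s₀ hs hpole b hb
    have hbg : IsBernsteinSato f b := isBernsteinSato_of_form_homogeneous hh hb
    by_cases hs1 : s₀ = -1
    · have h0 : (0 : Fin (k + 1) →₀ ℕ) ∉ f.support := by
        rw [notMem_support_iff]
        exact hh.coeff_eq_zero (by simp; omega)
      rw [hs1]
      exact neg_one_root hf h0 b hb
    have hsd : s₀ ≠ -(((k + 1 : ℕ) : ℚ) / d) := by
      rw [hroot, div_self (by exact_mod_cast (Nat.succ_ne_zero k))]
      exact hs1
    by_contra hcon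
    apply hpole
    refine (zmot_mem_of_coneM hf hd hh hT₀fin hcov₀ (fun W hW => (hT₀W W hW).1) hsd
      fun W hW V hV hVc hV0 => ?_).2
    by_contra hser
    exact hcon ((hT₀W W hW).2 V hV hVc hV0 s₀ hs hs1 hser b hbg)
  · exact SmcLoc.of_coneM hf hd hh hT₀fin hcov₀ hT₀W hroot

end MPb07157
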