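import Pool.Agent.Lib.MP_b07157_agSG.Defs

/-!
# Homogenization
-/

noncomputable section

namespace MPb07157

open MvPolynomial

namespace CC

variable {k : ℕ}

/-- Homogenization: for a polynomial `g` in `k` variables and `N ≥ deg g` there is a polynomial `G` in
`k + 1` variables with `G(p) = p_j^N g(pr j p)` if `p_j ≠ 0` (sum over the monomials of `g`). -/
theorem exists_homog (j : Fin (k + 1)) (g : MvPolynomial (Fin k) ℂ) {N : ℕ}
    (hN : g.totalDegree ≤ N) : ∃ G : MvPolynomial (Fin (k + 1)) ℂ,
      ∀ p : Fin (k + 1) → ℂ, p j ≠ 0 → eval p G = p j ^ N * eval (pr j p) g := by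
  refine ⟨∑ m ∈ g.support, C (g.coeff m) * X j ^ (N - ∑ i, m i) *
    ∏ i, X (j.succAbove i) ^ (m i), ?_⟩
  intro p hp
  rw [map_sum, MvPolynomial.eval_eq' (pr j p) g, Finset.mul_sum]
  refine Finset.sum_congr rfl ?_
  intro m hm
  have hdeg : (∑ i, m i) ≤ N := by
    refine le_trans ?_ hN
    have h := MvPolynomial.le_totalDegree hm
    rwa [Finsupp.sum_fintype _ _ (fun _ => rfl)] at h
  simp only [map_mul, map_pow, map_prod, eval_C, eval_X]
  have hprod : (∏ i, pr j p i ^ m i) * p j ^ (∑ i, m i) = ∏ i, p (j.succAbove i) ^ m i := by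
    rw [← Finset.prod_pow_eq_pow_sum, ← Finset.prod_mul_distrib]
    refine Finset.prod_congr rfl ?_
    intro i _
    rw [← mul_pow]
    congr 1
    simp only [pr]
    field_simp
  have hsplit : p j ^ N = p j ^ (N - ∑ i, m i) * p j ^ (∑ i, m i) := by
    rw [← pow_add, Nat.sub_add_cancel hdeg]
  rw [← hprod, hsplit]
  ring

/-- Cones over constructible sets are constructible: by induction on `IsConstr` (`zeros`: the
homogenization; `compl`: intersect with `p_j ≠ 0`). -/
theorem isConstr_cone (j : Fin (k + 1)) {W : Set (Fin k → ℂ)} (hW : IsConstr W) :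
    IsConstr (cone j W) := by
  have hne : IsConstr {p : Fin (k + 1) → ℂ | p j ≠ 0} := by
    have h := (IsConstr.zeros (X j : MvPolynomial (Fin (k + 1)) ℂ)).compl
    have he : {x : Fin (k + 1) → ℂ | eval x (X j : MvPolynomial (Fin (k + 1)) ℂ) = 0}ᶜ =
        {p : Fin (k + 1) → ℂ | p j ≠ 0} := by
      ext x
      simp
    rwa [he] at h
  induction hW with
  | zeros g =>
    obtain ⟨G, hG⟩ := exists_homog j g (le_refl g.totalDegree)
    have he : cone j {x | eval x g = 0} =
        {p : Fin (k + 1) → ℂ | p j ≠ 0} ∩ {x | eval x G = 0} := by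
      ext x
      simp only [cone, Set.mem_setOf_eq, Set.mem_inter_iff]
      refine and_congr_right ?_
      intro hx
      rw [hG x hx]
      constructor
      · intro h
        rw [h, mul_zero]
      · intro h
        exact (mul_eq_zero.mp h).resolve_left (pow_ne_zero _ hx)
    rw [he]
    exact hne.inter (IsConstr.zeros G)
  | @compl S _ ih =>
    have he : cone j Sᶜ = {p : Fin (k + 1) → ℂ | p j ≠ 0} ∩ (cone j S)ᶜ := by
      ext x
      simp only [cone, Set.mem_setOf_eq, Set.mem_inter_iff, Set.mem_compl_iff]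
      tauto
    rw [he]
    exact hne.inter ih.compl
  | @inter S T _ _ ih1 ih2 =>
    have he : cone j (S ∩ T) = cone j S ∩ cone j T := by
      ext x
      simp only [cone, Set.mem_setOf_eq, Set.mem_inter_iff]
      tauto
    rw [he]
    exact ih1.inter ih2

end CC

end MPb07157
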