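import Pool.Agent.Lib.MP_b07157_agSG.ConeG

/-!
# Cones over sets along which a polynomial is trivial
-/

noncomputable section

namespace MPb07157

open MvPolynomial

namespace CC

variable {k : ℕ}

open ConeS in
/-- If `f` is homogeneous and its restriction to `x_j = 1` is trivial along `W`, then `f` is trivial
along the cone over `W`. -/
theorem trivAlong_cone {f : MvPolynomial (Fin (k + 1)) ℂ} {d : ℕ} (hh : f.IsHomogeneous d)
    (j : Fin (k + 1)) {W : Set (Fin k → ℂ)} {m : ℕ} {g : MvPolynomial (Fin m) ℂ}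
    (h : TrivAlong (ch f j) W g) : TrivAlong f (cone j W) g := by
  classical
  obtain ⟨u, a, b, q, hab, hW⟩ := h
  set N : ℕ := a.totalDegree + b.totalDegree + q.totalDegree + ∑ i, (u i).totalDegree with hN
  have hdu : ∀ i, (u i).totalDegree ≤ N := by
    intro i
    have : (u i).totalDegree ≤ ∑ i, (u i).totalDegree :=
      Finset.single_le_sum (f := fun i => (u i).totalDegree) (fun _ _ => Nat.zero_le _)
        (Finset.mem_univ i)
    omega
  obtain ⟨A, hA⟩ := exists_homog j a (N := N) (by omega)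
  obtain ⟨B, hB⟩ := exists_homog j b (N := N + d) (by omega)
  obtain ⟨Q, hQ⟩ := exists_homog j q (N := N) (by omega)
  choose U hU using fun i => exists_homog j (u i) (hdu i)
  refine ⟨U, X j * A, X j * B, Q, fun p hq => ?_, ?_⟩
  · by_cases hp : p j = 0
    · rw [map_mul, map_mul, eval_X, hp]
      ring
    · rw [hQ p hp] at hq
      have hq' : eval (pr j p) q ≠ 0 := right_ne_zero_of_mul hq
      have h1 := hab _ hq'
      have h2 : (fun i => eval p (U i) / eval p Q) =
          fun i => eval (pr j p) (u i) / eval (pr j p) q := by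
        funext i
        rw [hU i p hp, hQ p hp, mul_div_mul_left _ _ (pow_ne_zero _ hp)]
      rw [map_mul, map_mul, eval_X, hA p hp, hB p hp, h2, eval_cone hh j p hp, pow_add]
      linear_combination (p j * p j ^ N * p j ^ d) * h1
  · rintro p ⟨hp, hpW⟩
    obtain ⟨h1, h2, h3, h4, h5⟩ := hW _ hpW
    have hr0 : p j ^ N ≠ 0 := pow_ne_zero _ hp
    refine ⟨?_, ?_, ?_, fun i => ?_, ?_⟩
    · rw [map_mul, eval_X, hA p hp]
      exact mul_ne_zero hp (mul_ne_zero hr0 h1)
    · rw [map_mul, eval_X, hB p hp]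
      exact mul_ne_zero hp (mul_ne_zero (pow_ne_zero _ hp) h2)
    · rw [hQ p hp]
      exact mul_ne_zero hr0 h3
    · rw [hU i p hp, h4 i, mul_zero]
    · rw [Fintype.linearIndependent_iff] at h5 ⊢
      intro b hb i
      refine h5 b ?_ i
      funext t
      have h6 := congrFun hb (j.succAbove t)
      rw [Finset.sum_apply] at h6 ⊢
      simp only [Pi.smul_apply, smul_eq_mul, Pi.zero_apply] at h6 ⊢
      have h7 : ∑ i, b i * eval p (pderiv (j.succAbove t) (U i)) =
          (p j ^ N * (p j)⁻¹) * ∑ i, b i * eval (pr j p) (pderiv t (u i)) := by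
        rw [Finset.mul_sum]
        refine Finset.sum_congr rfl fun i _ => ?_
        rw [pderiv_homog j (hU i) p hp t]
        ring
      rw [h7] at h6
      exact (mul_eq_zero.1 h6).resolve_left (mul_ne_zero hr0 (inv_ne_zero hp))

/-- `Good`, or trivial along `W` with a germ for which the conjecture is known. -/
def GoodT {n : ℕ} (g : MvPolynomial (Fin n) ℂ) (W : Set (Fin n → ℂ)) : Prop :=
  Good g W ∨ ∃ (m : ℕ) (h : MvPolynomial (Fin m) ℂ), (h ≠ 0 → coeff 0 h = 0 → SmcLoc h) ∧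
    TrivAlong g W h

theorem GoodT.mono {n : ℕ} {g : MvPolynomial (Fin n) ℂ} (hg : g ≠ 0) {W : Set (Fin n → ℂ)}
    (h : GoodT g W) : MonoAlong g W := by
  rcases h with h | ⟨m, h, h1, h2⟩
  · exact h.mono hg
  · exact MonoAlong.of_trivAlong hg h2 h1

end CC

open CC in
/-- **Homogeneous polynomials** whose critical zeros `p ≠ 0`, outside sets along which the conjecture
is known, are covered in the charts. -/
theorem SmcLoc.of_coneV {k : ℕ} {f : MvPolynomial (Fin (k + 1)) ℂ} (hf : f ≠ 0) {d : ℕ}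
    (hd : 0 < d) (hh : f.IsHomogeneous d) {T : Set (Set (Fin (k + 1) → ℂ))} (hT : T.Finite)
    (hTW : ∀ W ∈ T, IsConstr W ∧ MonoAlong f W)
    (hcov : ∀ j : Fin (k + 1), ∃ T' : Set (Set (Fin k → ℂ)), T'.Finite ∧
      (∀ W ∈ T', IsConstr W ∧ CC.GoodT (ch f j) W) ∧
      ∀ p, p j ≠ 0 → eval p f = 0 → (∀ i, eval p (pderiv i f) = 0) →
        (∃ W ∈ T, p ∈ W) ∨ ∃ W ∈ T', pr j p ∈ W)
    (hroot : d = k + 1 ∨ ConeRoot f d) : SmcLoc f := by
  classical
  choose T' hT'1 hT'2 hT'3 using hcov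
  set S : Set (Set (Fin (k + 1) → ℂ)) := ⋃ j, (cone j) '' T' j with hS
  refine SmcLoc.of_coneG hf hd hh (T := T ∪ S) (hT.union ?_) ?_ (fun j => ⟨∅, Set.finite_empty,
    fun W hW => absurd hW (Set.notMem_empty _), fun p hp h0 hc => ?_⟩) hroot
  · rw [hS]
    exact Set.finite_iUnion fun j => (hT'1 j).image _
  · rintro W (hW | hW)
    · exact hTW W hW
    · rw [hS] at hW
      obtain ⟨j, W', hW', rfl⟩ := Set.mem_iUnion.1 hW
      refine ⟨isConstr_cone j (hT'2 j W' hW').1, ?_⟩
      rcases (hT'2 j W' hW').2 with (⟨m, w, N, hq⟩ | ⟨x, rfl, hr⟩) | ⟨m, h, h1, h2⟩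
      · exact MonoAlong.of_sqhAlong hf (sqhAlong_cone hh j hq)
      · exact mono_line hf hh hr
      · exact MonoAlong.of_trivAlong hf (trivAlong_cone hh j h2) h1
  · rcases hT'3 j p hp h0 hc with ⟨W, hW, hpW⟩ | ⟨W', hW', hpW'⟩
    · exact Or.inl ⟨W, Or.inl hW, hpW⟩
    · exact Or.inl ⟨cone j W', Or.inr (Set.mem_iUnion.2 ⟨j, W', hW', rfl⟩), hp, hpW'⟩

end MPb07157
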