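import Pool.Agent.Lib.MP_b07157_agSA.Defs
import Pool.Agent.Lib.MP_b07157_ag.Defs

/-!
# Charts of homogeneous polynomials
-/

noncomputable section

namespace MPb07157

open MvPolynomial

namespace CC

variable {k : ℕ}

/-- The restriction of `f` to `x_j = 1`. -/
def ch (f : MvPolynomial (Fin (k + 1)) ℂ) (j : Fin (k + 1)) : MvPolynomial (Fin k) ℂ :=
  aeval (j.insertNth (α := fun _ => MvPolynomial (Fin k) ℂ) 1 X) f

/-- The projection from the origin to `x_j = 1`. -/
def pr (j : Fin (k + 1)) (p : Fin (k + 1) → ℂ) : Fin k → ℂ := fun i => p (j.succAbove i) / p j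

/-- The cone over a set in `x_j = 1`, without the origin. -/
def cone (j : Fin (k + 1)) (W : Set (Fin k → ℂ)) : Set (Fin (k + 1) → ℂ) :=
  {p | p j ≠ 0 ∧ pr j p ∈ W}

end CC

end MPb07157
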